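import Pool.Agent.Lib.Tate.Conn.Spec

/-!
# C42, Conn/Af: a point outside of finitely many proper affine subspaces
-/

set_option autoImplicit false

open Set Filter Topology Metric
open scoped OnePoint ZeroAtInfty

noncomputable section

namespace Pool.Agent.Tate.Cnn

theorem af_ne_top {V : Type} [NormedAddCommGroup V] [NormedSpace ℝ V] [FiniteDimensional ℝ V]
    (T : Finset V) (hT : T.card ≤ Module.finrank ℝ V) : affineSpan ℝ (T : Set V) ≠ ⊤ := by
  classical
  intro h
  rcases T.eq_empty_or_nonempty with he | hne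
  · rw [he, Finset.coe_empty, AffineSubspace.span_empty] at h
    exact AffineSubspace.bot_ne_top ℝ V V h
  · obtain ⟨n, hn⟩ := Nat.exists_eq_succ_of_ne_zero (Finset.card_pos.2 hne).ne'
    have h1 := finrank_vectorSpan_image_finset_le ℝ (id : V → V) T hn
    rw [Finset.image_id, ← direction_affineSpan, h, AffineSubspace.direction_top, finrank_top] at h1
    omega

theorem pAf : S_Af := by
  classical
  intro V _ _ _ C
  by_contra hcon
  push Not at hcon
  borelize V
  obtain ⟨μ, hμ⟩ : ∃ μ : MeasureTheory.Measure V, μ.IsAddHaarMeasure :=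
    ⟨MeasureTheory.Measure.addHaar, inferInstance⟩
  have h1 : (Set.univ : Set V) ⊆ ⋃ T ∈ C.powerset.filter (fun T => T.card ≤ Module.finrank ℝ V),
      (affineSpan ℝ (T : Set V) : Set V) := by
    intro p _
    obtain ⟨T, hTC, hT, hp⟩ := hcon p
    rw [Set.mem_iUnion₂]
    exact ⟨T, Finset.mem_filter.2 ⟨Finset.mem_powerset.2 hTC, hT⟩, hp⟩
  have h2 : μ (⋃ T ∈ C.powerset.filter (fun T => T.card ≤ Module.finrank ℝ V),
      (affineSpan ℝ (T : Set V) : Set V)) = 0 := by
    refine (MeasureTheory.measure_biUnion_null_iff (Finset.countable_toSet _)).2 fun T hT => ?_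
    exact MeasureTheory.Measure.addHaar_affineSubspace μ _
      (af_ne_top T (Finset.mem_filter.1 hT).2)
  exact isOpen_univ.measure_ne_zero μ univ_nonempty (MeasureTheory.measure_mono_null h1 h2)

end Pool.Agent.Tate.Cnn
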