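import Pool.Agent.Lib.Tate.Conn.Spec

/-!
# C42, block Conn: null homotopic maps extend to the ball
-/

set_option autoImplicit false

open Set Filter Topology Metric
open scoped OnePoint ZeroAtInfty

noncomputable section

namespace Pool.Agent.Tate.Cnn

theorem pBa : S_Ba := by
  rintro E Y _ _ _ f y0 ⟨H, hH, hv⟩
  classical
  have hcl1 : IsClosed {x : E | ‖x‖ ≤ 1 / 2} := isClosed_le continuous_norm continuous_const
  have hcl2 : IsClosed {x : E | 1 / 2 ≤ ‖x‖} := isClosed_le continuous_const continuous_norm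
  have hn : ∀ x : E, 1 / 2 ≤ ‖x‖ → ‖x‖ ≠ 0 := fun x hx h => by rw [h] at hx; norm_num at hx
  have hs : ∀ x : E, 1 / 2 ≤ ‖x‖ → ‖x‖⁻¹ • x ∈ sphere (0 : E) 1 := by
    intro x hx
    rw [mem_sphere_zero_iff_norm, norm_smul, norm_inv, norm_norm, inv_mul_cancel₀ (hn x hx)]
  refine ⟨fun x => if ‖x‖ ≤ 1 / 2 then y0 else H (2 - 2 * ‖x‖, ‖x‖⁻¹ • x), ?_, ?_⟩
  · have c2 : ContinuousOn (fun x : E => H (2 - 2 * ‖x‖, ‖x‖⁻¹ • x))
        (closedBall (0 : E) 1 ∩ {x | 1 / 2 ≤ ‖x‖}) := by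
      refine hH.comp ?_ ?_
      · refine ContinuousOn.prodMk (Continuous.continuousOn (by fun_prop)) ?_
        refine ContinuousOn.smul ?_ continuousOn_id
        exact continuous_norm.continuousOn.inv₀ fun x hx => hn x hx.2
      · rintro x ⟨hx, hx2⟩
        simp only [mem_ofPred_eq] at hx2
        rw [mem_closedBall_zero_iff] at hx
        exact ⟨⟨by simp only; linarith, by simp only; linarith⟩, hs x hx2⟩
    have c2' : ContinuousOn (fun x : E => if ‖x‖ ≤ 1 / 2 then y0 else H (2 - 2 * ‖x‖, ‖x‖⁻¹ • x))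
        (closedBall (0 : E) 1 ∩ {x | 1 / 2 ≤ ‖x‖}) := by
      refine c2.congr ?_
      rintro x ⟨hx, hx2⟩
      simp only [mem_ofPred_eq] at hx2
      by_cases h : ‖x‖ ≤ 1 / 2
      · have e : ‖x‖ = 1 / 2 := le_antisymm h hx2
        have e2 : (2 - 2 * ‖x‖ : ℝ) = 1 := by rw [e]; norm_num
        simp only [h, if_true, e2, (hv _ (hs x hx2)).2]
      · simp only [h, if_false]
    have c1' : ContinuousOn (fun x : E => if ‖x‖ ≤ 1 / 2 then y0 else H (2 - 2 * ‖x‖, ‖x‖⁻¹ • x))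
        (closedBall (0 : E) 1 ∩ {x | ‖x‖ ≤ 1 / 2}) := by
      refine (continuousOn_const (c := y0)).congr ?_
      rintro x ⟨hx, hx2⟩
      simp only [mem_ofPred_eq] at hx2
      simp only [hx2, if_true]
    intro p hp
    have hun : closedBall (0 : E) 1
        = (closedBall (0 : E) 1 ∩ {x | ‖x‖ ≤ 1 / 2}) ∪ (closedBall (0 : E) 1 ∩ {x | 1 / 2 ≤ ‖x‖}) := by
      rw [← inter_union_distrib_left]
      refine (inter_eq_left.2 fun q _ => ?_).symm
      exact le_total ‖q‖ (1 / 2)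
    rw [ContinuousWithinAt, hun, nhdsWithin_union, tendsto_sup]
    constructor
    · by_cases h : ‖p‖ ≤ 1 / 2
      · exact c1' p ⟨hp, h⟩
      · have : (𝓝[closedBall (0 : E) 1 ∩ {x | ‖x‖ ≤ 1 / 2}] p) = ⊥ := by
          rw [← notMem_closure_iff_nhdsWithin_eq_bot]
          intro hc
          exact h (hcl1.closure_subset_iff.2 inter_subset_right hc)
        rw [this]
        exact tendsto_bot
    · by_cases h : 1 / 2 ≤ ‖p‖
      · exact c2' p ⟨hp, h⟩
      · have : (𝓝[closedBall (0 : E) 1 ∩ {x | 1 / 2 ≤ ‖x‖}] p) = ⊥ := by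
          rw [← notMem_closure_iff_nhdsWithin_eq_bot]
          intro hc
          exact h (hcl2.closure_subset_iff.2 inter_subset_right hc)
        rw [this]
        exact tendsto_bot
  · intro x hx
    have hx' := hx
    rw [mem_sphere_zero_iff_norm] at hx'
    have e : ¬ (‖x‖ ≤ 1 / 2) := by rw [hx']; norm_num
    have e2 : (2 - 2 * ‖x‖ : ℝ) = 0 := by rw [hx']; norm_num
    have e3 : ‖x‖⁻¹ • x = x := by rw [hx']; simp
    simp only [e, if_false, e2, e3]
    exact (hv x hx).1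

end Pool.Agent.Tate.Cnn
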