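import Pool.Agent.Lib.Tate.Conn.Spec

/-!
# C42, block Conn: the main result for the maximum norm
-/

set_option autoImplicit false

open Set Filter Topology Metric
open scoped OnePoint ZeroAtInfty

noncomputable section

namespace Pool.Agent.Tate.Cnn

theorem pCb (h1 : S_Da) (h2 : S_Mh) (h3 : S_Me) (h4 : S_Ph) (h5 : S_Ht) (h6 : S_Ba) : S_Cb := by
  intro V I _ _ _ _ n hn f hf
  rcases Nat.eq_zero_or_pos n with rfl | hpos
  · refine ⟨f, ?_, fun _ _ => rfl⟩
    have : f = fun _ => f 0 := by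
      ext1 x
      rw [Subsingleton.elim x 0]
    rw [this]
    exact continuousOn_const
  · obtain ⟨ι, inst, t, κ, dat⟩ := h1 V I n f hpos hf
    obtain ⟨hk, hcont⟩ := h2 (Fin n → ℝ) V I ι (sphere 0 1) f n t κ dat hf
    obtain ⟨p, hp⟩ := h3 (Fin n → ℝ) V I ι (sphere 0 1) f n t κ dat hn
    have hk2 := h4 (Fin n → ℝ) V I (sphere 0 1) (fun x => (f x).push (mo t κ (1, x))) p hcont hp
    exact h6 (Fin n → ℝ) (Conf V I) f default
      (h5 (Fin n → ℝ) (Conf V I) (sphere 0 1) f _ _ hk hk2)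

end Pool.Agent.Tate.Cnn
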