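import Pool.Agent.Lib.Tate.Conn.Spec

/-!
# C42, Conn/Cn: the main result
-/

set_option autoImplicit false

open Set Filter Topology Metric
open scoped OnePoint ZeroAtInfty

noncomputable section

namespace Pool.Agent.Tate.Cnn

theorem pCn (h1 : S_Cb) (h2 : S_Nr) : S_Cn := by
  intro V I _ _ _ _ n hn
  exact h2 (Conf V I) n fun f hf => h1 V I n hn f hf

end Pool.Agent.Tate.Cnn
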