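import Pool.Agent.Lib.Tate.Conn.Spec

/-!
# C42 (MP_071d69_gt), Conn/Cu: clusters of a configuration (helper82)
-/

set_option autoImplicit false

open Set Filter Topology Metric
open scoped OnePoint ZeroAtInfty

noncomputable section

namespace Pool.Agent.Tate.Cnn

theorem pCu : S_Cu := by
  classical
  intro V I _ _ _ _ c
  obtain ⟨Z, hZ⟩ : ∃ Z : Set V, Z = {y | c.P y ≠ 0} := ⟨_, rfl⟩
  have hfin : Z.Finite := by
    rw [hZ]
    exact c.fin
  -- the radius
  obtain ⟨r, hr0, hr1, hr⟩ : ∃ r : ℝ, 0 < r ∧ r ≤ 1 ∧ ∀ z ∈ Z, ∀ z' ∈ Z, z ≠ z' → 2 * r ≤ dist z z' := by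
    have h1 : ∀ᶠ r in 𝓝[>] (0 : ℝ), ∀ z ∈ Z, ∀ z' ∈ Z, z ≠ z' → 2 * r ≤ dist z z' := by
      rw [Filter.eventually_all_finite hfin]
      intro z _
      rw [Filter.eventually_all_finite hfin]
      intro z' _
      by_cases hzz : z = z'
      · exact Filter.Eventually.of_forall fun r h => absurd hzz h
      · have h2 : 0 < dist z z' := dist_pos.2 hzz
        have h3 : ∀ᶠ r in 𝓝[>] (0 : ℝ), r < dist z z' / 2 :=
          (eventually_lt_nhds (half_pos h2)).filter_mono nhdsWithin_le_nhds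
        filter_upwards [h3] with r hr _
        linarith
    have h2 : ∀ᶠ r in 𝓝[>] (0 : ℝ), r < 1 :=
      (eventually_lt_nhds one_pos).filter_mono nhdsWithin_le_nhds
    have h3 : ∀ᶠ r in 𝓝[>] (0 : ℝ), 0 < r := self_mem_nhdsWithin
    obtain ⟨r, hr, hr1, hr0⟩ := (h1.and (h2.and h3)).exists
    exact ⟨r, hr0, hr1.le, hr⟩
  -- the bound
  obtain ⟨R, hR3, hR⟩ : ∃ R : ℝ, 3 ≤ R ∧ ∀ z ∈ Z, ‖z‖ + 1 ≤ R := by
    obtain ⟨R, hR⟩ := hfin.isBounded.exists_norm_le
    exact ⟨max 3 (R + 1), le_max_left _ _, fun z hz =>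
      (add_le_add_left (hR z hz) 1).trans (le_max_right _ _)⟩
  have huniq : ∀ y : V, ∀ z ∈ Z, ∀ z' ∈ Z, dist y z < r → dist y z' < r → z = z' := by
    intro y z hz z' hz' h1 h2
    by_contra hne
    have h3 := hr z hz z' hz' hne
    have h4 := dist_triangle_left z z' y
    linarith
  obtain ⟨κ, hκ⟩ : ∃ κ : V → OnePoint V, κ = fun y =>
      if h : ∃ z ∈ Z, dist y z < r then ((h.choose : V) : OnePoint V) else ∞ := ⟨_, rfl⟩
  have hκ1 : ∀ y z, z ∈ Z → dist y z < r → κ y = z := by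
    intro y z hz hyz
    have h : ∃ z ∈ Z, dist y z < r := ⟨z, hz, hyz⟩
    rw [hκ]
    simp only [dif_pos h]
    rw [huniq y _ h.choose_spec.1 z hz h.choose_spec.2 hyz]
  have hκ2 : ∀ y, (∀ z ∈ Z, ¬ dist y z < r) → κ y = ∞ := by
    intro y hy
    have h : ¬ ∃ z ∈ Z, dist y z < r := fun ⟨z, hz, hyz⟩ => hy z hz hyz
    rw [hκ]
    simp only [dif_neg h]
  have hκ3 : ∀ y z : V, κ y = z → z ∈ Z ∧ dist y z < r := by
    intro y z hyz
    by_cases h : ∃ z ∈ Z, dist y z < r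
    · obtain ⟨z', hz', hyz'⟩ := h
      rw [hκ1 y z' hz' hyz'] at hyz
      rw [← OnePoint.coe_injective hyz]
      exact ⟨hz', hyz'⟩
    · rw [hκ2 y fun z hz hyz => h ⟨z, hz, hyz⟩] at hyz
      exact absurd hyz (OnePoint.infty_ne_coe z)
  have hfar : ∀ y : V, R < ‖y‖ → κ y = ∞ := by
    intro y hy
    refine hκ2 y fun z hz hyz => ?_
    have h1 := hR z hz
    have h2 : ‖y‖ ≤ ‖z‖ + dist y z := by
      have h3 := norm_le_norm_add_norm_sub z y
      rw [dist_eq_norm, norm_sub_rev]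
      exact h3
    linarith
  refine ⟨(⋃ z ∈ Z, ball z r) ∪ {y | R < ‖y‖}, κ, ⟨?_, ?_, ?_, ?_⟩, ?_, ?_⟩
  · rintro y (hy | hy)
    · rw [Set.mem_iUnion₂] at hy
      obtain ⟨z, hz, hyz⟩ := hy
      filter_upwards [isOpen_ball.mem_nhds hyz] with y' hy'
      rw [hκ1 y z hz (mem_ball.1 hyz), hκ1 y' z hz (mem_ball.1 hy')]
    · filter_upwards [(isOpen_lt continuous_const continuous_norm).mem_nhds hy] with y' hy'
      rw [hfar y hy, hfar y' hy']
  · intro y z hyz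
    have h1 := (hκ3 y z hyz).2
    rw [← dist_eq_norm, dist_comm]
    linarith
  · rintro y (hy | hy) hyi
    · rw [Set.mem_iUnion₂] at hy
      obtain ⟨z, hz, hyz⟩ := hy
      rw [hκ1 y z hz (mem_ball.1 hyz)] at hyi
      exact absurd hyi (OnePoint.coe_ne_infty z)
    · exact hR3.trans_lt hy
  · exact hfin.subset fun z ⟨y, hy⟩ => (hκ3 y z hy).1
  · refine (isCompact_closedBall (0 : V) R).of_isClosed_subset ?_ ?_
    · rw [isClosed_compl_iff]
      exact (isOpen_biUnion fun z _ => isOpen_ball).union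
        (isOpen_lt continuous_const continuous_norm)
    · intro y hy
      rw [mem_closedBall_zero_iff]
      by_contra h
      exact hy (Or.inr (not_le.1 h))
  · intro y hy
    refine Or.inl ?_
    rw [Set.mem_iUnion₂]
    refine ⟨y, ?_, mem_ball_self hr0⟩
    rw [hZ]
    exact hy

end Pool.Agent.Tate.Cnn
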