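import Pool.Agent.Lib.Tate.Conn.Spec

/-!
# C42, block Conn: transitivity of homotopies
-/

set_option autoImplicit false

open Set Filter Topology Metric
open scoped OnePoint ZeroAtInfty

noncomputable section

namespace Pool.Agent.Tate.Cnn

theorem pHt : S_Ht := by
  rintro X Y _ _ K f f' f'' ⟨H1, h1, v1⟩ ⟨H2, h2, v2⟩
  classical
  refine ⟨fun p => if p.1 ≤ 1 / 2 then H1 (2 * p.1, p.2) else H2 (2 * p.1 - 1, p.2), ?_, ?_⟩
  · have hcl1 : IsClosed {p : ℝ × X | p.1 ≤ 1 / 2} := isClosed_le continuous_fst continuous_const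
    have hcl2 : IsClosed {p : ℝ × X | 1 / 2 ≤ p.1} := isClosed_le continuous_const continuous_fst
    have c1 : ContinuousOn (fun p : ℝ × X => H1 (2 * p.1, p.2))
        ((Icc (0 : ℝ) 1 ×ˢ K) ∩ {p | p.1 ≤ 1 / 2}) := by
      refine h1.comp (Continuous.continuousOn (by fun_prop)) ?_
      rintro ⟨t, x⟩ ⟨⟨ht, hx⟩, ht2⟩
      simp only [mem_ofPred_eq] at ht2
      exact ⟨⟨by simpa using ht.1, by simp only; linarith⟩, hx⟩
    have c2 : ContinuousOn (fun p : ℝ × X => H2 (2 * p.1 - 1, p.2))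
        ((Icc (0 : ℝ) 1 ×ˢ K) ∩ {p | 1 / 2 ≤ p.1}) := by
      refine h2.comp (Continuous.continuousOn (by fun_prop)) ?_
      rintro ⟨t, x⟩ ⟨⟨ht, hx⟩, ht2⟩
      simp only [mem_ofPred_eq] at ht2
      exact ⟨⟨by simp only; linarith, by simp only; linarith [ht.2]⟩, hx⟩
    have hfr : ∀ p ∈ (Icc (0 : ℝ) 1 ×ˢ K) ∩ {p : ℝ × X | 1 / 2 ≤ p.1},
        (if p.1 ≤ 1 / 2 then H1 (2 * p.1, p.2) else H2 (2 * p.1 - 1, p.2))
          = H2 (2 * p.1 - 1, p.2) := by
      rintro ⟨t, x⟩ ⟨⟨ht, hx⟩, ht2⟩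
      simp only [mem_ofPred_eq] at ht2
      by_cases h : t ≤ 1 / 2
      · have e : t = 1 / 2 := le_antisymm h ht2
        subst e
        simp only [le_refl, if_true]
        have e1 : (2 * (1 / 2) : ℝ) = 1 := by norm_num
        have e2 : (2 * (1 / 2) - 1 : ℝ) = 0 := by norm_num
        rw [e2, e1, (v1 x hx).2, (v2 x hx).1]
      · simp only [h, if_false]
    have c2' := c2.congr hfr
    have c1' : ContinuousOn
        (fun p : ℝ × X => if p.1 ≤ 1 / 2 then H1 (2 * p.1, p.2) else H2 (2 * p.1 - 1, p.2))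
        ((Icc (0 : ℝ) 1 ×ˢ K) ∩ {p | p.1 ≤ 1 / 2}) := by
      refine c1.congr ?_
      rintro ⟨t, x⟩ ⟨⟨ht, hx⟩, ht2⟩
      simp only [mem_ofPred_eq] at ht2
      simp only [ht2, if_true]
    intro p hp
    have hun : Icc (0 : ℝ) 1 ×ˢ K
        = ((Icc (0 : ℝ) 1 ×ˢ K) ∩ {p | p.1 ≤ 1 / 2}) ∪ ((Icc (0 : ℝ) 1 ×ˢ K) ∩ {p | 1 / 2 ≤ p.1}) := by
      rw [← inter_union_distrib_left]
      refine (inter_eq_left.2 fun q _ => ?_).symm
      exact le_total q.1 (1 / 2)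
    rw [ContinuousWithinAt, hun, nhdsWithin_union, tendsto_sup]
    constructor
    · by_cases h : p.1 ≤ 1 / 2
      · exact c1' p ⟨hp, h⟩
      · have : (𝓝[(Icc (0 : ℝ) 1 ×ˢ K) ∩ {p | p.1 ≤ 1 / 2}] p) = ⊥ := by
          rw [← notMem_closure_iff_nhdsWithin_eq_bot]
          intro hc
          exact h (hcl1.closure_subset_iff.2 inter_subset_right hc)
        rw [this]
        exact tendsto_bot
    · by_cases h : 1 / 2 ≤ p.1
      · exact c2' p ⟨hp, h⟩
      · have : (𝓝[(Icc (0 : ℝ) 1 ×ˢ K) ∩ {p | 1 / 2 ≤ p.1}] p) = ⊥ := by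
          rw [← notMem_closure_iff_nhdsWithin_eq_bot]
          intro hc
          exact h (hcl2.closure_subset_iff.2 inter_subset_right hc)
        rw [this]
        exact tendsto_bot
  · intro x hx
    constructor
    · have e : (0 : ℝ) ≤ 1 / 2 := by norm_num
      simp only [e, if_true, mul_zero, (v1 x hx).1]
    · have e : ¬ ((1 : ℝ) ≤ 1 / 2) := by norm_num
      have e2 : (2 * 1 - 1 : ℝ) = 1 := by norm_num
      simp only [e, if_false, e2, (v2 x hx).2]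

end Pool.Agent.Tate.Cnn
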