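import Pool.Agent.Lib.Tate.Conn.Spec

/-!
# C42 (MP_071d69_gt), Conn/Lb: clusters for all `x` in a small set (helper82)
-/

set_option autoImplicit false

open Set Filter Topology Metric
open scoped OnePoint ZeroAtInfty

noncomputable section

namespace Pool.Agent.Tate.Cnn

theorem pLb (hUs : S_Us) (hCu : S_Cu) : S_Lb := by
  intro X V I _ _ _ _ _ K g hK hg
  have h1 : ∀ x₀ : K, ∃ (U : Set X) (W : Set V) (κ : V → OnePoint V), IsOpen U ∧ (x₀ : X) ∈ U ∧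
      Clu W κ ∧ ∀ x ∈ U ∩ K, ∀ y, (g x).P y ≠ 0 → y ∈ W := by
    intro x₀
    obtain ⟨W, κ, hC, hW, hs⟩ := hCu V I (g x₀)
    have h2 : IsOpen {c : Conf V I | ∀ y ∈ Wᶜ, c.P y = 0} := hUs V I Wᶜ hW
    have h3 : g x₀ ∈ {c : Conf V I | ∀ y ∈ Wᶜ, c.P y = 0} := by
      intro y hy
      by_contra h
      exact hy (hs y h)
    have h4 : g ⁻¹' {c : Conf V I | ∀ y ∈ Wᶜ, c.P y = 0} ∈ 𝓝[K] (x₀ : X) :=
      (hg x₀ x₀.2).preimage_mem_nhdsWithin (h2.mem_nhds h3)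
    rw [mem_nhdsWithin] at h4
    obtain ⟨U, hU, hxU, hUK⟩ := h4
    refine ⟨U, W, κ, hU, hxU, hC, fun x hx y hy => ?_⟩
    by_contra h
    exact hy (hUK hx y h)
  choose U W κ hU hxU hC hs using h1
  obtain ⟨δ, hδ, hL⟩ := lebesgue_number_lemma_of_metric hK hU
    (fun x hx => Set.mem_iUnion.2 ⟨⟨x, hx⟩, hxU ⟨x, hx⟩⟩)
  refine ⟨δ, hδ, fun D hD => ?_⟩
  by_cases hne : (D ∩ K).Nonempty
  · obtain ⟨x, hxD, hxK⟩ := hne
    obtain ⟨i, hi⟩ := hL x hxK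
    refine ⟨W i, κ i, hC i, fun x' hx' y hy => hs i x' ⟨hi ?_, hx'.2⟩ y hy⟩
    exact mem_ball.2 (hD x' hx'.1 x hxD)
  · obtain ⟨W', κ', hC', -, -⟩ := hCu V I default
    exact ⟨W', κ', hC', fun x hx => absurd ⟨x, hx⟩ hne⟩

end Pool.Agent.Tate.Cnn
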