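import Pool.Agent.Lib.Tate.Conn.Spec

/-!
# C42, Conn/Ma (helper46): continuity of the motion
-/

set_option autoImplicit false

open Set Filter Topology Metric
open scoped OnePoint ZeroAtInfty

noncomputable section

namespace Pool.Agent.Tate.Cnn

namespace MaAux

variable {X V ι : Type} [TopologicalSpace X] [Fintype ι] [NormedAddCommGroup V] [NormedSpace ℝ V]

/-- the numerator with fixed centres -/
def mA' (t : ι → X → ℝ) (κ : ι → V → OnePoint V) (y₀ : V) (p : (ℝ × X) × V) : V :=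
  (1 - p.1.1) • p.2 + ∑ Q, (p.1.1 * t Q p.1.2) • OnePoint.elim (κ Q y₀) (0 : V) id

theorem mF_eq (t : ι → X → ℝ) (κ : ι → V → OnePoint V) (y₀ : V) (p : (ℝ × X) × V)
    (h : ∀ Q, κ Q p.2 = κ Q y₀ ∨ t Q p.1.2 = 0) : mF t κ p.1 p.2 = mF t κ p.1 y₀ := by
  unfold mF
  congr 1
  refine Finset.sum_congr rfl fun Q _ => ?_
  rcases h Q with h1 | h1
  · rw [h1]
  · rw [h1, mul_zero, ite_self, ite_self]

theorem mA_eq (t : ι → X → ℝ) (κ : ι → V → OnePoint V) (y₀ : V) (p : (ℝ × X) × V)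
    (h : ∀ Q, κ Q p.2 = κ Q y₀ ∨ t Q p.1.2 = 0) : mA t κ p.1 p.2 = mA' t κ y₀ p := by
  unfold mA mA'
  congr 1
  refine Finset.sum_congr rfl fun Q _ => ?_
  rcases h Q with h1 | h1
  · rw [h1]
  · rw [h1, mul_zero, zero_smul, zero_smul]

theorem mF_cont (t : ι → X → ℝ) (κ : ι → V → OnePoint V) (y₀ : V) (ht : ∀ Q, Continuous (t Q)) :
    Continuous fun q : ℝ × X => mF t κ q y₀ := by
  classical
  unfold mF
  refine (continuous_const.sub continuous_fst).add (continuous_finsetSum _ fun Q _ => ?_)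
  by_cases h : κ Q y₀ = ∞
  · simp only [if_pos h]
    exact continuous_const
  · simp only [if_neg h]
    exact continuous_fst.mul ((ht Q).comp continuous_snd)

theorem mT_cont (t : ι → X → ℝ) (ht : ∀ Q, Continuous (t Q)) :
    Continuous fun q : ℝ × X => mT t q := by
  unfold mT
  refine (continuous_const.sub continuous_fst).add (continuous_finsetSum _ fun Q _ => ?_)
  exact continuous_fst.mul ((ht Q).comp continuous_snd)

theorem mA'_cont (t : ι → X → ℝ) (κ : ι → V → OnePoint V) (y₀ : V) (ht : ∀ Q, Continuous (t Q)) :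
    Continuous (mA' t κ y₀) := by
  unfold mA'
  refine ((continuous_const.sub (continuous_fst.comp continuous_fst)).smul continuous_snd).add
    (continuous_finsetSum _ fun Q _ => ?_)
  exact ((continuous_fst.comp continuous_fst).mul
    ((ht Q).comp (continuous_snd.comp continuous_fst))).smul continuous_const

end MaAux

open MaAux

/-- **Ma.** -/
theorem pMa (h1 : S_Mn) : S_Ma := by
  classical
  intro X V ι _ _ _ _ K t κ q₀ y₀ htc htn hnear hq₀ hex hloc hfar
  have hMn := (h1 X V ι t κ htn hnear).2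
  obtain ⟨l, hl⟩ : ∃ l, l = 𝓝[Icc (0 : ℝ) 1 ×ˢ K] q₀ ×ˢ 𝓝 y₀ := ⟨_, rfl⟩
  rw [← hl]
  have hfst : Tendsto Prod.fst l (𝓝[Icc (0 : ℝ) 1 ×ˢ K] q₀) := by
    rw [hl]
    exact tendsto_fst
  have hsnd : Tendsto Prod.snd l (𝓝 y₀) := by
    rw [hl]
    exact tendsto_snd
  have hfst' : Tendsto Prod.fst l (𝓝 q₀) := hfst.mono_right nhdsWithin_le_nhds
  have hle : l ≤ 𝓝 (q₀, y₀) := by
    rw [hl, nhds_prod_eq]
    exact Filter.prod_mono nhdsWithin_le_nhds le_rfl
  have hmem : ∀ᶠ p in l, p.1 ∈ Icc (0 : ℝ) 1 ×ˢ K := hfst.eventually self_mem_nhdsWithin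
  have hx : Tendsto (fun p : (ℝ × X) × V => p.1.2) l (𝓝[K] q₀.2) := by
    rw [tendsto_nhdsWithin_iff]
    refine ⟨(continuous_snd.tendsto q₀).comp hfst', ?_⟩
    filter_upwards [hmem] with p hp
    exact hp.2
  have hgood : ∀ᶠ p : (ℝ × X) × V in l, ∀ Q, κ Q p.2 = κ Q y₀ ∨ t Q p.1.2 = 0 := by
    rw [eventually_all]
    intro Q
    rcases hloc Q with h | h
    · filter_upwards [hsnd.eventually h] with p hp
      exact Or.inl hp
    · filter_upwards [hx.eventually h] with p hp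
      exact Or.inr hp
  have hF : Tendsto (fun p : (ℝ × X) × V => mF t κ p.1 y₀) l (𝓝 (mF t κ q₀ y₀)) :=
    ((mF_cont t κ y₀ htc).tendsto q₀).comp hfst'
  have hT : Tendsto (fun p : (ℝ × X) × V => mT t p.1) l (𝓝 (mT t q₀)) :=
    ((mT_cont t htc).tendsto q₀).comp hfst'
  by_cases hF0 : mF t κ q₀ y₀ = 0
  · -- the value is infinity
    have hval : mo t κ q₀ y₀ = ∞ := by
      unfold mo
      rw [if_pos hF0]
    rw [hval]
    have hτ := hq₀.1
    have hterm : ∀ Q ∈ (Finset.univ : Finset ι),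
        0 ≤ (if κ Q y₀ = ∞ then 0 else q₀.1 * t Q q₀.2) := by
      intro Q _
      split_ifs
      · exact le_rfl
      · exact mul_nonneg hτ.1 (htn Q _)
    have hF0' : (1 - q₀.1) + ∑ Q, (if κ Q y₀ = ∞ then 0 else q₀.1 * t Q q₀.2) = 0 := hF0
    have hs := Finset.sum_nonneg hterm
    have hτ1 : q₀.1 = 1 := by linarith [hτ.2]
    have hs0 : ∑ Q, (if κ Q y₀ = ∞ then 0 else q₀.1 * t Q q₀.2) = 0 := by linarith
    obtain ⟨Q₀, hQ₀⟩ := hex
    have hpos : 0 < t Q₀ q₀.2 := lt_of_le_of_ne (htn _ _) hQ₀.symm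
    have hκ : κ Q₀ y₀ = ∞ := by
      by_contra hκ
      have h2 := (Finset.sum_eq_zero_iff_of_nonneg hterm).1 hs0 Q₀ (Finset.mem_univ _)
      rw [if_neg hκ, hτ1, one_mul] at h2
      exact hQ₀ h2
    have hy₀ := hfar Q₀ hQ₀ hκ
    have hTpos : 0 < mT t q₀ := by
      unfold mT
      rw [hτ1]
      have h2 : t Q₀ q₀.2 ≤ ∑ Q, 1 * t Q q₀.2 := by
        have h3 := Finset.single_le_sum (f := fun Q => 1 * t Q q₀.2) (s := Finset.univ)
          (fun Q _ => by
            show 0 ≤ 1 * t Q q₀.2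
            rw [one_mul]
            exact htn _ _) (Finset.mem_univ Q₀)
        simpa using h3
      linarith
    rw [OnePoint.hasBasis_nhds_infty.tendsto_right_iff]
    rintro s ⟨_, hs2⟩
    obtain ⟨R, hR⟩ := hs2.isBounded.exists_norm_le
    have hε : 0 < mT t q₀ / 2 / (|R| + 1) := by positivity
    rw [hF0] at hF
    have e3 := hF.eventually (gt_mem_nhds hε)
    have e4 := hT.eventually (lt_mem_nhds (half_lt_self hTpos))
    have e5 := (hsnd.norm).eventually (lt_mem_nhds (show (2 : ℝ) < ‖y₀‖ by linarith))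
    filter_upwards [hmem, hgood, e3, e4, e5] with p hp1 hp2 hp3 hp4 hp5
    rcases hmo : mo t κ p.1 p.2 with _ | v
    · right
      rfl
    · left
      refine ⟨v, ?_, rfl⟩
      intro hv
      have h2 := hR v hv
      obtain ⟨h3, h4⟩ := (hMn p.1 hp1.1 p.2).2.2 v hmo
      rw [mF_eq t κ y₀ p hp2] at h3 h4
      have h5 : |R| + 1 < mT t p.1 / mF t κ p.1 y₀ := by
        rw [lt_div_iff₀ h3]
        rw [lt_div_iff₀ (by positivity)] at hp3
        linarith [mul_comm (|R| + 1) (mF t κ p.1 y₀)]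
      have h6 : |R| + 1 ≤ mT t p.1 / mF t κ p.1 y₀ * (‖p.2‖ - 1) := by
        have h7 : 0 ≤ |R| := abs_nonneg R
        nlinarith
      have h8 := le_abs_self R
      linarith
  · have hval : mo t κ q₀ y₀ = ((((mT t q₀ / mF t κ q₀ y₀ ^ 2) • mA t κ q₀ y₀ : V)) :
        OnePoint V) := by
      unfold mo
      rw [if_neg hF0]
    rw [hval]
    have hA : Tendsto (mA' t κ y₀) l (𝓝 (mA' t κ y₀ (q₀, y₀))) :=
      ((mA'_cont t κ y₀ htc).tendsto (q₀, y₀)).mono_left hle
    have hA0 : mA' t κ y₀ (q₀, y₀) = mA t κ q₀ y₀ :=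
      (mA_eq t κ y₀ (q₀, y₀) fun Q => Or.inl rfl).symm
    rw [hA0] at hA
    have hlim := (hT.div (hF.pow 2) (pow_ne_zero 2 hF0)).smul hA
    have hlim' := (OnePoint.continuous_coe.tendsto _).comp hlim
    refine hlim'.congr' ?_
    filter_upwards [hgood, hF.eventually_ne hF0] with p hp2 hp3
    show (((mT t p.1 / mF t κ p.1 y₀ ^ 2) • mA' t κ y₀ p : V) : OnePoint V) = mo t κ p.1 p.2
    unfold mo
    rw [mF_eq t κ y₀ p hp2, if_neg hp3, mA_eq t κ y₀ p hp2]

end Pool.Agent.Tate.Cnn
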