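import Pool.Agent.Lib.Tate.Conn.Spec

/-!
# C42, Conn/Mb: the motion near infinity
-/

set_option autoImplicit false

open Set Filter Topology Metric
open scoped OnePoint ZeroAtInfty

noncomputable section

namespace Pool.Agent.Tate.Cnn

theorem pMb (h1 : S_Mn) : S_Mb := by
  intro X V ι _ _ _ _ _ K t κ q₀ ht hκ
  obtain ⟨-, hm⟩ := h1 X V ι t κ ht hκ
  rw [OnePoint.hasBasis_nhds_infty.tendsto_right_iff]
  rintro s ⟨-, hs⟩
  obtain ⟨R, hR⟩ := hs.isBounded.subset_closedBall (0 : V)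
  have e1 : ∀ᶠ p in 𝓝[Icc (0 : ℝ) 1 ×ˢ K] q₀, p ∈ Icc (0 : ℝ) 1 ×ˢ K := self_mem_nhdsWithin
  have e2 : ∀ᶠ y in cocompact V, max R 0 + 1 < ‖y‖ :=
    (tendsto_norm_cocompact_atTop (E := V)).eventually_gt_atTop _
  filter_upwards [e1.prod_mk e2] with p hp
  obtain ⟨⟨hp1, -⟩, hp2⟩ := hp
  obtain ⟨hF0, hFT, hv⟩ := hm p.1 hp1 p.2
  cases hval : mo t κ p.1 p.2 using OnePoint.rec with
  | infty => exact Or.inr rfl
  | coe v =>
    obtain ⟨hF, hb⟩ := hv v hval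
    refine Or.inl ⟨v, ?_, rfl⟩
    intro hvs
    have h2 : ‖v‖ ≤ R := by
      have := hR hvs
      rwa [mem_closedBall_zero_iff] at this
    have h3 : 1 ≤ mT t p.1 / mF t κ p.1 p.2 := (one_le_div hF).2 hFT
    have h4 : R ≤ max R 0 := le_max_left _ _
    have h5 : 0 ≤ max R 0 := le_max_right _ _
    have h6 : 1 * (‖p.2‖ - 1) ≤ mT t p.1 / mF t κ p.1 p.2 * (‖p.2‖ - 1) :=
      mul_le_mul_of_nonneg_right h3 (by linarith)
    linarith

end Pool.Agent.Tate.Cnn
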