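import Pool.Agent.Lib.Tate.Conn.Spec

/-!
# C42, block Conn: a point which is not used at the end
-/

set_option autoImplicit false

open Set Filter Topology Metric
open scoped OnePoint ZeroAtInfty

noncomputable section

namespace Pool.Agent.Tate.Cnn

theorem pMe (h1 : S_Mf) (h2 : S_Af) : S_Me := by
  intro X V I ι _ _ _ _ _ _ K g n t κ dat hn
  classical
  obtain ⟨p, hp⟩ := h2 V (insert 0 (Finset.univ.biUnion fun Q => (dat.fin Q).toFinset))
  refine ⟨p, fun x hx => ?_⟩
  by_contra hcon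
  obtain ⟨y, -, hm⟩ := Conf.exists_of_push_ne hcon
  have hC : ∀ Q, ∀ (y z : V), κ Q y = z →
      z ∈ insert 0 (Finset.univ.biUnion fun Q => (dat.fin Q).toFinset) := by
    intro Q y z hz
    refine Finset.mem_insert_of_mem (Finset.mem_biUnion.2 ⟨Q, Finset.mem_univ _, ?_⟩)
    rw [Finite.mem_toFinset]
    exact ⟨y, hz⟩
  obtain ⟨T, hT, hTn, hv⟩ := h1 X V ι t κ n _ x y p dat.nn (dat.card x hx)
    (Finset.mem_insert_self (0 : V) (Finset.univ.biUnion fun Q => (dat.fin Q).toFinset)) hC hm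
  exact hp T hT (hTn.trans hn) hv

end Pool.Agent.Tate.Cnn
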