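import Pool.Agent.Lib.Tate.Conn.Spec

/-!
# C42, block Conn: the end of the motion
-/

set_option autoImplicit false

open Set Filter Topology Metric
open scoped OnePoint ZeroAtInfty

noncomputable section

namespace Pool.Agent.Tate.Cnn

theorem pMf : S_Mf := by
  intro X V ι _ _ _ t κ n C x y v ht hcard h0C hκC hv
  classical
  set z : ι → V := fun Q => OnePoint.elim (κ Q y) (0 : V) id with hz
  set J' : Finset ι := Finset.univ.filter fun Q => t Q x ≠ 0 with hJ'
  set J : Finset ι := J'.filter fun Q => κ Q y ≠ ∞ with hJ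
  have hJJ : J ⊆ J' := Finset.filter_subset _ _
  have hJ'n : J'.card ≤ n := by
    have : ({Q | t Q x ≠ 0} : Set ι).ncard = J'.card := by
      rw [← Set.ncard_coe_finset]
      congr 1
      ext Q
      simp [hJ']
    rwa [this] at hcard
  have hF : mF t κ (1, x) y = ∑ Q ∈ J, t Q x := by
    have e : mF t κ (1, x) y = ∑ Q, if κ Q y = ∞ then 0 else t Q x := by
      unfold mF
      simp
    rw [e, hJ, hJ', Finset.filter_filter, Finset.sum_filter]
    refine Finset.sum_congr rfl fun Q _ => ?_
    by_cases h1 : κ Q y = ∞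
    · simp [h1]
    · by_cases h2 : t Q x = 0
      · simp [h2]
      · simp [h1, h2]
  have hT : mT t (1, x) = ∑ Q ∈ J', t Q x := by
    have e : mT t (1, x) = ∑ Q, t Q x := by
      unfold mT
      simp
    rw [e, hJ', Finset.sum_filter]
    refine Finset.sum_congr rfl fun Q _ => ?_
    by_cases h2 : t Q x = 0
    · simp [h2]
    · simp [h2]
  have hA : mA t κ (1, x) y = ∑ Q ∈ J, t Q x • z Q := by
    have e : mA t κ (1, x) y = ∑ Q, t Q x • z Q := by
      unfold mA
      simp [hz]
    rw [e, hJ, hJ', Finset.filter_filter, Finset.sum_filter]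
    refine Finset.sum_congr rfl fun Q _ => ?_
    by_cases h1 : κ Q y = ∞
    · have : z Q = 0 := by
        simp only [hz, h1, OnePoint.elim_infty]
      simp [h1, this]
    · by_cases h2 : t Q x = 0
      · simp [h2]
      · simp [h1, h2]
  have hne : mF t κ (1, x) y ≠ 0 := by
    intro h
    unfold mo at hv
    rw [if_pos h] at hv
    exact OnePoint.infty_ne_coe _ hv
  have hv2 : v = (mT t (1, x) / mF t κ (1, x) y ^ 2) • mA t κ (1, x) y := by
    unfold mo at hv
    rw [if_neg hne] at hv
    exact (OnePoint.coe_injective hv).symm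
  set F := mF t κ (1, x) y with hFd
  have hF0 : 0 < F := by
    refine lt_of_le_of_ne ?_ (Ne.symm hne)
    rw [hF]
    exact Finset.sum_nonneg fun Q _ => ht Q x
  set w : V := ∑ Q ∈ J, (t Q x / F) • z Q with hw
  have hvw : v = (mT t (1, x) / F) • w := by
    rw [hv2, hA, hw, Finset.smul_sum, Finset.smul_sum]
    refine Finset.sum_congr rfl fun Q _ => ?_
    rw [smul_smul, smul_smul]
    congr 1
    field_simp
  have hzC : ∀ Q ∈ J, z Q ∈ C := by
    intro Q hQ
    rw [hJ, Finset.mem_filter] at hQ
    obtain ⟨u, hu⟩ := OnePoint.ne_infty_iff_exists.1 hQ.2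
    have : z Q = u := by
      simp only [hz, ← hu, OnePoint.elim_some, id]
    rw [this]
    exact hκC Q y u hu.symm
  have hmem : ∀ S : AffineSubspace ℝ V, (∀ Q ∈ J, z Q ∈ S) → w ∈ S := by
    intro S hS
    refine S.convex.sum_mem (fun Q _ => div_nonneg (ht Q x) hF0.le) ?_ hS
    rw [← Finset.sum_div, ← hF]
    exact div_self hne
  by_cases hc : J = J'
  · refine ⟨J.image z, ?_, (Finset.card_image_le).trans (hc ▸ hJ'n), ?_⟩
    · intro u hu
      obtain ⟨Q, hQ, rfl⟩ := Finset.mem_image.1 hu
      exact hzC Q hQ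
    · have h1 : mT t (1, x) / F = 1 := by
        rw [hT, ← hc, ← hF]
        exact div_self hne
      rw [hvw, h1, one_smul]
      refine hmem _ fun Q hQ => subset_affineSpan ℝ _ ?_
      exact Finset.mem_coe.2 (Finset.mem_image_of_mem z hQ)
  · have hlt : J.card < J'.card := Finset.card_lt_card (lt_of_le_of_ne hJJ hc)
    refine ⟨insert 0 (J.image z), ?_, ?_, ?_⟩
    · intro u hu
      rcases Finset.mem_insert.1 hu with rfl | hu
      · exact h0C
      · obtain ⟨Q, hQ, rfl⟩ := Finset.mem_image.1 hu
        exact hzC Q hQ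
    · have h1 := Finset.card_insert_le (0 : V) (J.image z)
      have h2 : (J.image z).card ≤ J.card := Finset.card_image_le
      omega
    · have h0 : (0 : V) ∈ affineSpan ℝ ((insert 0 (J.image z) : Finset V) : Set V) :=
        subset_affineSpan ℝ _ (Finset.mem_coe.2 (Finset.mem_insert_self _ _))
      have h1 : w ∈ affineSpan ℝ ((insert 0 (J.image z) : Finset V) : Set V) := by
        refine hmem _ fun Q hQ => subset_affineSpan ℝ _ ?_
        exact Finset.mem_coe.2 (Finset.mem_insert_of_mem (Finset.mem_image_of_mem z hQ))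
      have h2 := AffineMap.lineMap_mem (mT t (1, x) / F) h0 h1
      rw [AffineMap.lineMap_apply] at h2
      simpa [hvw] using h2

end Pool.Agent.Tate.Cnn
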