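import Pool.Agent.Lib.Tate.Conn.Spec

/-!
# C42, block Conn: the first homotopy
-/

set_option autoImplicit false

open Set Filter Topology Metric
open scoped OnePoint ZeroAtInfty

noncomputable section

namespace Pool.Agent.Tate.Cnn

theorem pMh (h1 : S_Pc) (h2 : S_Ma) (h3 : S_Mb) (h4 : S_Mn) : S_Mh := by
  intro X V I ι _ _ _ _ _ _ K g n t κ dat hg
  have hc : ContinuousOn (fun p : ℝ × X => (g p.2).push (mo t κ p)) (Icc (0 : ℝ) 1 ×ˢ K) := by
    intro q₀ hq₀
    refine h1 (ℝ × X) V V I (Icc (0 : ℝ) 1 ×ˢ K) q₀ (fun p => g p.2) (fun p => mo t κ p) ?_ ?_ ?_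
    · exact (hg q₀.2 hq₀.2).comp continuous_snd.continuousWithinAt fun p hp => hp.2
    · intro y hy
      exact h2 X V ι K t κ q₀ y dat.cont dat.nn dat.near hq₀ (dat.pos q₀.2 hq₀.2)
        (fun Q => dat.loc q₀.2 hq₀.2 y hy Q) (fun Q => dat.far q₀.2 hq₀.2 y hy Q)
    · exact h3 X V ι K t κ q₀ dat.nn dat.near
  refine ⟨⟨fun p => (g p.2).push (mo t κ p), hc, fun x _ => ⟨?_, rfl⟩⟩, ?_⟩
  · have h5 := (h4 X V ι t κ dat.nn dat.near).1
    have h6 : (g x).push (mo t κ (0, x)) = (g x).push (fun y : V => (y : OnePoint V)) :=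
      Conf.push_congr fun y _ => h5 x y
    show (g x).push (mo t κ (0, x)) = g x
    rw [h6, Conf.push_coe]
  · have h7 : ContinuousOn (fun x : X => ((1 : ℝ), x)) K := Continuous.continuousOn (by fun_prop)
    exact hc.comp h7 fun x hx => ⟨⟨zero_le_one, le_rfl⟩, hx⟩

end Pool.Agent.Tate.Cnn
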