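import Pool.Agent.Lib.Tate.Conn.Spec

/-!
# C42, block Conn: the motion at time 0 and the lower bound for the norm
-/

set_option autoImplicit false

open Set Filter Topology Metric
open scoped OnePoint ZeroAtInfty

noncomputable section

namespace Pool.Agent.Tate.Cnn

theorem pMn : S_Mn := by
  intro X V ι _ _ _ t κ ht hκ
  classical
  refine ⟨fun x y => ?_, fun p hp y => ?_⟩
  · have e1 : mF t κ (0, x) y = 1 := by
      unfold mF
      simp
    have e2 : mT t (0, x) = 1 := by
      unfold mT
      simp
    have e3 : mA t κ (0, x) y = y := by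
      unfold mA
      simp
    unfold mo
    rw [e1, e2, e3]
    simp
  · have h0 : 0 ≤ 1 - p.1 := by linarith [hp.2]
    have hF : mF t κ p y = (1 - p.1) + ∑ Q, if κ Q y = ∞ then 0 else p.1 * t Q p.2 := by
      unfold mF
      rfl
    have hpos : ∀ Q, 0 ≤ p.1 * t Q p.2 := fun Q => mul_nonneg hp.1 (ht Q _)
    have hF0 : 0 ≤ mF t κ p y := by
      rw [hF]
      refine add_nonneg h0 (Finset.sum_nonneg fun Q _ => ?_)
      split_ifs
      · exact le_rfl
      · exact hpos Q
    have hFT : mF t κ p y ≤ mT t p := by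
      rw [hF]
      unfold mT
      gcongr with Q
      split_ifs
      · exact hpos Q
      · exact le_rfl
    refine ⟨hF0, hFT, fun v hv => ?_⟩
    have hne : mF t κ p y ≠ 0 := by
      intro h
      unfold mo at hv
      rw [if_pos h] at hv
      exact OnePoint.infty_ne_coe _ hv
    have hFp : 0 < mF t κ p y := lt_of_le_of_ne hF0 (Ne.symm hne)
    refine ⟨hFp, ?_⟩
    have hv2 : v = (mT t p / mF t κ p y ^ 2) • mA t κ p y := by
      unfold mo at hv
      rw [if_neg hne] at hv
      exact (OnePoint.coe_injective hv).symm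
    have hd : mA t κ p y - mF t κ p y • y
        = ∑ Q, if κ Q y = ∞ then (0 : V) else (p.1 * t Q p.2) • (OnePoint.elim (κ Q y) (0 : V) id - y) := by
      rw [hF]
      unfold mA
      rw [add_smul, add_sub_add_left_eq_sub, Finset.sum_smul, ← Finset.sum_sub_distrib]
      refine Finset.sum_congr rfl fun Q _ => ?_
      by_cases h : κ Q y = ∞
      · simp [h]
      · simp only [h, if_false]
        rw [smul_sub]
    have hnd : ‖mA t κ p y - mF t κ p y • y‖ ≤ mF t κ p y := by
      rw [hd]
      refine (norm_sum_le _ _).trans ?_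
      rw [hF]
      refine le_trans ?_ (le_add_of_nonneg_left h0)
      refine Finset.sum_le_sum fun Q _ => ?_
      by_cases h : κ Q y = ∞
      · simp [h]
      · simp only [h, if_false]
        obtain ⟨z, hz⟩ := OnePoint.ne_infty_iff_exists.1 h
        rw [← hz, OnePoint.elim_some, norm_smul, Real.norm_of_nonneg (hpos Q)]
        have := hκ Q y z hz.symm
        simp only [id]
        nlinarith [hpos Q]
    have hlow : mF t κ p y * (‖y‖ - 1) ≤ ‖mA t κ p y‖ := by
      have h1 : ‖mF t κ p y • y‖ ≤ ‖mA t κ p y‖ + ‖mA t κ p y - mF t κ p y • y‖ := by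
        have := norm_sub_le (mA t κ p y) (mA t κ p y - mF t κ p y • y)
        rwa [sub_sub_cancel] at this
      rw [norm_smul, Real.norm_of_nonneg hF0] at h1
      linarith
    have hT0 : 0 ≤ mT t p := hF0.trans hFT
    have hq : 0 ≤ mT t p / mF t κ p y ^ 2 := by positivity
    rw [hv2, norm_smul, Real.norm_of_nonneg hq]
    calc mT t p / mF t κ p y * (‖y‖ - 1)
        = mT t p / mF t κ p y ^ 2 * (mF t κ p y * (‖y‖ - 1)) := by
          field_simp
      _ ≤ _ := mul_le_mul_of_nonneg_left hlow hq

end Pool.Agent.Tate.Cnn
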