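import Pool.Agent.Lib.Tate.Conn.Spec

/-!
# C42 (MP_071d69_gt), Conn/N2: lower bound for `ev` (helper82)
-/

set_option autoImplicit false

open Set Filter Topology Metric
open scoped OnePoint ZeroAtInfty

noncomputable section

namespace Pool.Agent.Tate.Cnn

theorem pN2 : S_N2 := by
  classical
  intro Y I _ c f y hy
  -- the product with the label of `y`
  have h1 : c.ev f * c.P y = (f y : ℂ) • c.P y := by
    rw [Conf.ev_eq_sum, Finset.sum_mul, Finset.sum_eq_single y]
    · rw [Matrix.smul_mul, c.idem]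
    · intro z _ hz
      rw [Matrix.smul_mul, c.orth _ _ hz, smul_zero]
    · intro hn
      refine absurd ?_ hn
      simpa using hy
  -- a maximal entry
  have hne : ∃ a b, c.P y a b ≠ 0 := by
    by_contra hcon
    apply hy
    ext a b
    by_contra h
    exact hcon ⟨a, b, h⟩
  obtain ⟨a₀, b₀, hab₀⟩ := hne
  obtain ⟨p, -, hp⟩ := Finset.exists_max_image (Finset.univ : Finset (I × I))
    (fun p => ‖c.P y p.1 p.2‖) ⟨(a₀, b₀), Finset.mem_univ _⟩
  have hpos : 0 < ‖c.P y p.1 p.2‖ :=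
    (norm_pos_iff.2 hab₀).trans_le (hp (a₀, b₀) (Finset.mem_univ _))
  have h2 : (f y : ℂ) * c.P y p.1 p.2 = ∑ k, c.ev f p.1 k * c.P y k p.2 := by
    have h3 := congrFun (congrFun h1 p.1) p.2
    rw [Matrix.mul_apply] at h3
    rw [h3]
    rfl
  have h4 : |f y| * ‖c.P y p.1 p.2‖ ≤ (∑ k, ‖c.ev f p.1 k‖) * ‖c.P y p.1 p.2‖ := by
    have h5 : ‖(f y : ℂ) * c.P y p.1 p.2‖ = |f y| * ‖c.P y p.1 p.2‖ := by
      rw [norm_mul, Complex.norm_real, Real.norm_eq_abs]
    rw [← h5, h2, Finset.sum_mul]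
    refine (norm_sum_le _ _).trans (Finset.sum_le_sum fun k _ => ?_)
    rw [norm_mul]
    exact mul_le_mul_of_nonneg_left (hp (k, p.2) (Finset.mem_univ _)) (norm_nonneg _)
  refine (le_of_mul_le_mul_right h4 hpos).trans ?_
  exact Finset.single_le_sum (f := fun a => ∑ b, ‖c.ev f a b‖)
    (fun a _ => Finset.sum_nonneg fun b _ => norm_nonneg _) (Finset.mem_univ p.1)

end Pool.Agent.Tate.Cnn
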