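import Pool.Agent.Lib.Tate.Conn.Spec

/-!
# C42, block Conn: other norms
-/

set_option autoImplicit false

open Set Filter Topology Metric
open scoped OnePoint ZeroAtInfty

noncomputable section

namespace Pool.Agent.Tate.Cnn

namespace Nr

variable {A B : Type} [NormedAddCommGroup A] [NormedSpace ℝ A] [NormedAddCommGroup B] [NormedSpace ℝ B]

/-- The radial homeomorphism. -/
def rad (L : A ≃L[ℝ] B) (x : A) : B := (‖x‖ / ‖L x‖) • L x

theorem norm_rad (L : A ≃L[ℝ] B) (x : A) : ‖rad L x‖ = ‖x‖ := by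
  unfold rad
  by_cases hx : x = 0
  · simp [hx]
  · have h : ‖L x‖ ≠ 0 := by
      rw [norm_ne_zero_iff]
      simpa using hx
    rw [norm_smul, norm_div, norm_norm, norm_norm, div_mul_cancel₀ _ h]

theorem cont_rad (L : A ≃L[ℝ] B) : Continuous (rad L) := by
  rw [continuous_iff_continuousAt]
  intro x
  by_cases hx : x = 0
  · subst hx
    have h0 : rad L (0 : A) = 0 := by simp [rad]
    rw [ContinuousAt, h0, tendsto_zero_iff_norm_tendsto_zero]
    simp only [norm_rad]
    exact tendsto_norm_zero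
  · have h : ‖L x‖ ≠ 0 := by
      rw [norm_ne_zero_iff]
      simpa using hx
    refine ContinuousAt.smul (ContinuousAt.div continuous_norm.continuousAt ?_ h) L.continuous.continuousAt
    exact (continuous_norm.comp L.continuous).continuousAt

theorem rad_rad (L : A ≃L[ℝ] B) (x : A) : rad L.symm (rad L x) = x := by
  by_cases hx : x = 0
  · simp [rad, hx]
  · have h : ‖L x‖ ≠ 0 := by
      rw [norm_ne_zero_iff]
      simpa using hx
    have hx' : ‖x‖ ≠ 0 := norm_ne_zero_iff.2 hx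
    have h1 : L.symm (rad L x) = (‖x‖ / ‖L x‖) • x := by
      unfold rad
      rw [map_smul, ContinuousLinearEquiv.symm_apply_apply]
    have h2 : rad L.symm (rad L x) = (‖rad L x‖ / ‖L.symm (rad L x)‖) • L.symm (rad L x) := rfl
    rw [h2, norm_rad, h1, norm_smul, norm_div, norm_norm, norm_norm, smul_smul]
    have h3 : ‖x‖ / (‖x‖ / ‖L x‖ * ‖x‖) * (‖x‖ / ‖L x‖) = 1 := by
      field_simp
    rw [h3, one_smul]

end Nr

theorem pNr : S_Nr := by
  intro Y _ n H E _ _ _ hE f hf
  have L : E ≃L[ℝ] (Fin n → ℝ) := ContinuousLinearEquiv.ofFinrankEq (by rw [hE]; simp)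
  have hs : ∀ y ∈ sphere (0 : Fin n → ℝ) 1, Nr.rad L.symm y ∈ sphere (0 : E) 1 := by
    intro y hy
    rw [mem_sphere_zero_iff_norm] at hy ⊢
    rw [Nr.norm_rad, hy]
  obtain ⟨g, hg, hgf⟩ := H (fun y => f (Nr.rad L.symm y))
    (hf.comp (Nr.cont_rad L.symm).continuousOn hs)
  refine ⟨fun x => g (Nr.rad L x), ?_, ?_⟩
  · refine hg.comp (Nr.cont_rad L).continuousOn ?_
    intro x hx
    rw [mem_closedBall_zero_iff] at hx ⊢
    rwa [Nr.norm_rad]
  · intro x hx
    have h1 : Nr.rad L x ∈ sphere (0 : Fin n → ℝ) 1 := by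
      rw [mem_sphere_zero_iff_norm] at hx ⊢
      rw [Nr.norm_rad, hx]
    show g (Nr.rad L x) = f x
    rw [hgf _ h1]
    show f (Nr.rad L.symm (Nr.rad L x)) = f x
    rw [Nr.rad_rad]

end Pool.Agent.Tate.Cnn
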