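import Pool.Agent.Lib.Tate.Conn.Spec

/-!
# C42, Conn/Os (helper46): Ostrand's cover of the sphere
-/

set_option autoImplicit false

open Set Filter Topology Metric
open scoped OnePoint ZeroAtInfty

noncomputable section

namespace Pool.Agent.Tate.Cnn

namespace OsAux

/-- the coordinate functions -/
def uu {n : ℕ} (N : ℕ) (Q : Fin n × (Fin n → Fin (2 * N + 2))) (x : Fin n → ℝ) (i : Fin n) : ℝ :=
  (N : ℝ) * x i - ((Q.1 : ℕ) + 1 : ℝ) / ((n : ℝ) + 1) - (((Q.2 i : ℕ) : ℝ) - N - 1)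

theorem uu_cont {n : ℕ} (N : ℕ) (Q : Fin n × (Fin n → Fin (2 * N + 2))) (i : Fin n) :
    Continuous fun x => uu N Q x i := by
  unfold uu
  fun_prop

/-- the product -/
def tt {n : ℕ} (N : ℕ) (Q : Fin n × (Fin n → Fin (2 * N + 2))) (x : Fin n → ℝ) : ℝ :=
  ∏ i, max 0 (min (uu N Q x i) (1 - uu N Q x i))

theorem tt_ne {n : ℕ} (N : ℕ) (Q : Fin n × (Fin n → Fin (2 * N + 2))) (x : Fin n → ℝ) :
    tt N Q x ≠ 0 ↔ ∀ i, 0 < uu N Q x i ∧ uu N Q x i < 1 := by
  unfold tt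
  rw [Finset.prod_ne_zero_iff]
  constructor
  · intro h i
    have h1 := h i (Finset.mem_univ i)
    by_contra h2
    apply h1
    apply max_eq_left
    rw [not_and_or, not_lt, not_lt] at h2
    rcases h2 with h2 | h2
    · exact (min_le_left _ _).trans h2
    · exact (min_le_right _ _).trans (by linarith)
  · intro h i _
    obtain ⟨h1, h2⟩ := h i
    have h3 : 0 < min (uu N Q x i) (1 - uu N Q x i) := lt_min h1 (by linarith)
    exact (lt_of_lt_of_le h3 (le_max_right _ _)).ne'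

end OsAux

open OsAux

/-- **Os.** -/
theorem pOs : S_Os := by
  intro n hn δ hδ
  obtain ⟨N, hN⟩ := exists_nat_gt (1 / δ)
  have hN0 : 0 < (N : ℝ) := lt_trans (by positivity) hN
  have hNδ : 1 / (N : ℝ) < δ := by
    rw [div_lt_iff₀ hN0]
    rw [div_lt_iff₀ hδ] at hN
    linarith
  have hn1 : (0 : ℝ) < (n : ℝ) + 1 := by positivity
  refine ⟨Fin n × (Fin n → Fin (2 * N + 2)), inferInstance,
    fun Q => {x | ∀ i, 0 ≤ uu N Q x i ∧ uu N Q x i ≤ 1}, tt N, ?_, ?_, ?_, ?_, ?_, ?_, ?_⟩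
  · intro Q
    have h : {x : Fin n → ℝ | ∀ i, 0 ≤ uu N Q x i ∧ uu N Q x i ≤ 1} =
        ⋂ i, ({x | 0 ≤ uu N Q x i} ∩ {x | uu N Q x i ≤ 1}) := by
      ext x
      simp only [mem_iInter, mem_inter_iff]
      exact Iff.rfl
    show IsClosed {x : Fin n → ℝ | ∀ i, 0 ≤ uu N Q x i ∧ uu N Q x i ≤ 1}
    rw [h]
    exact isClosed_iInter fun i => (isClosed_le continuous_const (uu_cont N Q i)).inter
      (isClosed_le (uu_cont N Q i) continuous_const)
  · intro Q x hx x' hx'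
    rw [dist_pi_lt_iff hδ]
    intro i
    have h1 := hx i
    have h2 := hx' i
    have h3 : |(N : ℝ) * (x i - x' i)| ≤ 1 := by
      have e : (N : ℝ) * (x i - x' i) = uu N Q x i - uu N Q x' i := by
        unfold uu
        ring
      rw [e, abs_le]
      constructor <;> linarith [h1.1, h1.2, h2.1, h2.2]
    rw [abs_mul, abs_of_pos hN0] at h3
    rw [Real.dist_eq]
    have h4 : |x i - x' i| ≤ 1 / N := by
      rw [le_div_iff₀ hN0]
      linarith
    linarith
  · intro Q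
    unfold tt
    refine continuous_finsetProd _ fun i _ => ?_
    exact continuous_const.max ((uu_cont N Q i).min (continuous_const.sub (uu_cont N Q i)))
  · intro Q x
    exact Finset.prod_nonneg fun i _ => le_max_left _ _
  · intro Q x h i
    have h1 := (tt_ne N Q x).1 h i
    exact ⟨h1.1.le, h1.2.le⟩
  · intro x hx
    have hnorm : ‖x‖ = 1 := by
      simpa using hx
    have hle : ∀ i, |x i| ≤ 1 := by
      intro i
      have := norm_le_pi_norm x i
      rw [hnorm, Real.norm_eq_abs] at this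
      exact this
    obtain ⟨j, hj⟩ : ∃ j, 1 ≤ |x j| := by
      by_contra h
      push Not at h
      have h1 : ‖x‖ < 1 := (pi_norm_lt_iff zero_lt_one).2 fun i => by
        rw [Real.norm_eq_abs]
        exact h i
      linarith
    have hjint : ∃ k : ℤ, (N : ℝ) * x j = k := by
      have h1 : |x j| = 1 := le_antisymm (hle j) hj
      rcases (abs_eq zero_le_one).1 h1 with h2 | h2
      · exact ⟨N, by rw [h2]; push_cast; ring⟩
      · exact ⟨-N, by rw [h2]; push_cast; ring⟩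
    -- a good colour
    obtain ⟨c, hc⟩ : ∃ c : Fin n, ∀ i, ∀ k : ℤ,
        (N : ℝ) * x i - ((c : ℕ) + 1 : ℝ) / ((n : ℝ) + 1) ≠ k := by
      by_contra hcon
      push Not at hcon
      choose f k hk using hcon
      have hinj : Function.Injective f := by
        intro c c' h
        have h1 := hk c
        have h2 := hk c'
        rw [h] at h1
        have h3 : ((c : ℕ) : ℝ) - (c' : ℕ) = ((k c' - k c : ℤ) : ℝ) * ((n : ℝ) + 1) := by
          push_cast
          rw [← h1, ← h2]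
          field_simp
          ring
        have h4 : (((c : ℕ) : ℤ) - (c' : ℕ)) = (k c' - k c) * ((n : ℤ) + 1) := by
          exact_mod_cast h3
        have h5 := c.2
        have h6 := c'.2
        have h7 : k c' - k c = 0 := by
          by_contra h8
          rcases lt_or_gt_of_ne h8 with h9 | h9
          · have : (k c' - k c) * ((n : ℤ) + 1) ≤ -1 * ((n : ℤ) + 1) :=
              mul_le_mul_of_nonneg_right (by omega) (by omega)
            omega
          · have : 1 * ((n : ℤ) + 1) ≤ (k c' - k c) * ((n : ℤ) + 1) :=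
              mul_le_mul_of_nonneg_right (by omega) (by omega)
            omega
        rw [h7, zero_mul] at h4
        apply Fin.ext
        omega
      obtain ⟨c, hcj⟩ := (Finite.injective_iff_surjective.1 hinj) j
      obtain ⟨k₀, hk₀⟩ := hjint
      have h1 := hk c
      rw [hcj, hk₀] at h1
      have h3 : ((c : ℕ) : ℝ) + 1 = ((k₀ - k c : ℤ) : ℝ) * ((n : ℝ) + 1) := by
        push_cast
        rw [← h1]
        field_simp
        ring
      have h4 : (((c : ℕ) : ℤ) + 1) = (k₀ - k c) * ((n : ℤ) + 1) := by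
        exact_mod_cast h3
      have h5 := c.2
      rcases le_or_gt (k₀ - k c) 0 with h9 | h9
      · have : (k₀ - k c) * ((n : ℤ) + 1) ≤ 0 * ((n : ℤ) + 1) :=
          mul_le_mul_of_nonneg_right h9 (by omega)
        omega
      · have : 1 * ((n : ℤ) + 1) ≤ (k₀ - k c) * ((n : ℤ) + 1) :=
          mul_le_mul_of_nonneg_right (by omega) (by omega)
        omega
    -- the cell
    have hcn := c.2
    have hfrac : 0 < ((c : ℕ) + 1 : ℝ) / ((n : ℝ) + 1) ∧ ((c : ℕ) + 1 : ℝ) / ((n : ℝ) + 1) < 1 := by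
      refine ⟨by positivity, ?_⟩
      rw [div_lt_one hn1]
      have : ((c : ℕ) : ℝ) < n := by exact_mod_cast hcn
      linarith
    have hfl : ∀ i, -(N : ℤ) - 1 ≤ ⌊(N : ℝ) * x i - ((c : ℕ) + 1 : ℝ) / ((n : ℝ) + 1)⌋ ∧
        ⌊(N : ℝ) * x i - ((c : ℕ) + 1 : ℝ) / ((n : ℝ) + 1)⌋ ≤ N := by
      intro i
      have h1 := abs_le.1 (hle i)
      have h2 : -(N : ℝ) ≤ N * x i := by nlinarith [h1.1]
      have h3 : (N : ℝ) * x i ≤ N := by nlinarith [h1.2]
      constructor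
      · rw [Int.le_floor]
        push_cast
        linarith [hfrac.2]
      · have h4 : ⌊(N : ℝ) * x i - ((c : ℕ) + 1 : ℝ) / ((n : ℝ) + 1)⌋ < (N : ℤ) + 1 := by
          rw [Int.floor_lt]
          push_cast
          linarith [hfrac.1]
        omega
    refine ⟨⟨c, fun i => ⟨(⌊(N : ℝ) * x i - ((c : ℕ) + 1 : ℝ) / ((n : ℝ) + 1)⌋ + N + 1).toNat, by
      have := hfl i
      omega⟩⟩, ?_⟩
    rw [tt_ne]
    intro i
    have h1 : (((⌊(N : ℝ) * x i - ((c : ℕ) + 1 : ℝ) / ((n : ℝ) + 1)⌋ + N + 1).toNat : ℕ) : ℝ) =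
        (⌊(N : ℝ) * x i - ((c : ℕ) + 1 : ℝ) / ((n : ℝ) + 1)⌋ : ℝ) + N + 1 := by
      have h2 : (((⌊(N : ℝ) * x i - ((c : ℕ) + 1 : ℝ) / ((n : ℝ) + 1)⌋ + N + 1).toNat : ℕ) : ℤ) =
          ⌊(N : ℝ) * x i - ((c : ℕ) + 1 : ℝ) / ((n : ℝ) + 1)⌋ + N + 1 := by
        have := hfl i
        omega
      exact_mod_cast h2
    have h3 := Int.floor_le ((N : ℝ) * x i - ((c : ℕ) + 1 : ℝ) / ((n : ℝ) + 1))
    have h4 := Int.lt_floor_add_one ((N : ℝ) * x i - ((c : ℕ) + 1 : ℝ) / ((n : ℝ) + 1))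
    have h5 := hc i ⌊(N : ℝ) * x i - ((c : ℕ) + 1 : ℝ) / ((n : ℝ) + 1)⌋
    have h6 : (⌊(N : ℝ) * x i - ((c : ℕ) + 1 : ℝ) / ((n : ℝ) + 1)⌋ : ℝ) <
        (N : ℝ) * x i - ((c : ℕ) + 1 : ℝ) / ((n : ℝ) + 1) := lt_of_le_of_ne h3 h5.symm
    unfold uu
    show 0 < (N : ℝ) * x i - ((c : ℕ) + 1 : ℝ) / ((n : ℝ) + 1) -
        ((((⌊(N : ℝ) * x i - ((c : ℕ) + 1 : ℝ) / ((n : ℝ) + 1)⌋ + N + 1).toNat : ℕ) : ℝ) - N - 1) ∧
      (N : ℝ) * x i - ((c : ℕ) + 1 : ℝ) / ((n : ℝ) + 1) -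
        ((((⌊(N : ℝ) * x i - ((c : ℕ) + 1 : ℝ) / ((n : ℝ) + 1)⌋ + N + 1).toNat : ℕ) : ℝ) - N - 1) < 1
    rw [h1]
    constructor <;> linarith
  · intro x _
    have h1 : ({Q | tt N Q x ≠ 0} : Set (Fin n × (Fin n → Fin (2 * N + 2)))).ncard ≤
        (Set.univ : Set (Fin n)).ncard := by
      refine Set.ncard_le_ncard_of_injOn Prod.fst (fun _ _ => Set.mem_univ _) ?_ Set.finite_univ
      intro Q hQ Q' hQ' h
      have h2 := (tt_ne N Q x).1 hQ
      have h3 := (tt_ne N Q' x).1 hQ'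
      refine Prod.ext h ?_
      funext i
      have h4 := h2 i
      have h5 := h3 i
      unfold uu at h4 h5
      rw [h] at h4
      have h6 : ((Q.2 i : ℕ) : ℝ) < ((Q'.2 i : ℕ) : ℝ) + 1 := by linarith [h4.1, h4.2, h5.1, h5.2]
      have h7 : ((Q'.2 i : ℕ) : ℝ) < ((Q.2 i : ℕ) : ℝ) + 1 := by linarith [h4.1, h4.2, h5.1, h5.2]
      have h8 : (Q.2 i : ℕ) < (Q'.2 i : ℕ) + 1 := by exact_mod_cast h6
      have h9 : (Q'.2 i : ℕ) < (Q.2 i : ℕ) + 1 := by exact_mod_cast h7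
      apply Fin.ext
      omega
    rw [Set.ncard_univ, Nat.card_eq_fintype_card, Fintype.card_fin] at h1
    exact h1

end Pool.Agent.Tate.Cnn
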