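import Pool.Agent.Lib.Tate.Conn.Spec

/-!
# C42, Conn/Pc (helper46): continuity of push
-/

set_option autoImplicit false

open Set Filter Topology Metric
open scoped OnePoint ZeroAtInfty

noncomputable section

namespace Pool.Agent.Tate.Cnn

namespace PcAux

variable {Y Y' I : Type} [Fintype I]

theorem ev_sub (c : Conf Y I) (f f' : Y → ℝ) :
    c.ev f = c.ev (fun y => f y - f' y) + c.ev f' := by
  rw [Conf.ev_eq_sum, Conf.ev_eq_sum, Conf.ev_eq_sum, ← Finset.sum_add_distrib]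
  refine Finset.sum_congr rfl fun y _ => ?_
  rw [← add_smul]
  congr 1
  push_cast
  ring

theorem ev_congr (c : Conf Y I) (f f' : Y → ℝ) (h : ∀ y, c.P y ≠ 0 → f y = f' y) :
    c.ev f = c.ev f' := by
  rw [Conf.ev_eq_sum, Conf.ev_eq_sum]
  refine Finset.sum_congr rfl fun y hy => ?_
  rw [h y (by simpa using hy)]

theorem elim_cont [TopologicalSpace Y'] [T2Space Y'] (f : C₀(Y', ℝ)) :
    Continuous fun p : OnePoint Y' => OnePoint.elim p 0 f := by
  rw [OnePoint.continuous_iff]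
  refine ⟨?_, ?_⟩
  · rw [Filter.coclosedCompact_eq_cocompact]
    exact zero_at_infty f
  · exact f.continuous

end PcAux

open PcAux

/-- **Pc.** -/
theorem pPc (h1 : S_N1) (h2 : S_Us) (h3 : S_Bu) : S_Pc := by
  classical
  intro X Y Y' I _ _ _ _ _ _ _ S x₀ g m hg ha hb
  rw [Conf.continuousWithinAt_iff]
  intro f
  obtain ⟨F, hF⟩ : ∃ F : OnePoint Y' → ℝ, F = fun p => OnePoint.elim p 0 f := ⟨_, rfl⟩
  have hFc : Continuous F := by
    rw [hF]
    exact elim_cont f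
  have hFi : F ∞ = 0 := by
    rw [hF]
    rfl
  have hev : ∀ x, ((g x).push (m x)).ev f = (g x).ev (fun y => F (m x y)) := by
    intro x
    rw [Conf.ev_push, hF]
  obtain ⟨φ, -, hφ⟩ := h3 Y {y | (g x₀).P y ≠ 0} (fun y => F (m x₀ y)) (g x₀).fin
  -- the main claim
  have key : ∀ ε : ℝ, 0 < ε → ∀ᶠ x in 𝓝[S] x₀, ∀ y, (g x).P y ≠ 0 → |F (m x y) - φ y| ≤ ε := by
    intro ε hε
    have hz : ∀ z ∈ {y | (g x₀).P y ≠ 0}, ∃ U : Set Y, IsOpen U ∧ z ∈ U ∧
        ∀ᶠ x in 𝓝[S] x₀, ∀ y ∈ U, |F (m x y) - φ y| ≤ ε := by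
      intro z hz
      have e1 : Tendsto (fun p : X × Y => F (m p.1 p.2)) (𝓝[S] x₀ ×ˢ 𝓝 z)
          (𝓝 (F (m x₀ z))) := (hFc.tendsto _).comp (ha z hz)
      have e2 := e1.eventually (Metric.closedBall_mem_nhds _ hε)
      have e3 : ∀ᶠ p in 𝓝[S] x₀ ×ˢ 𝓝 z, φ p.2 = F (m x₀ z) := tendsto_snd.eventually (hφ z hz)
      have e4 : ∀ᶠ p in 𝓝[S] x₀ ×ˢ 𝓝 z, |F (m p.1 p.2) - φ p.2| ≤ ε := by
        filter_upwards [e2, e3] with p hp1 hp2
        rw [hp2]
        exact hp1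
      rw [Filter.Eventually, Filter.mem_prod_iff] at e4
      obtain ⟨A, hA, B, hB, hAB⟩ := e4
      obtain ⟨U, hUB, hU, hzU⟩ := mem_nhds_iff.1 hB
      refine ⟨U, hU, hzU, ?_⟩
      filter_upwards [hA] with x hx y hy
      exact hAB (Set.mk_mem_prod hx (hUB hy))
    choose! U hUo hzU hU using hz
    have e5 : Tendsto (fun p : X × Y => F (m p.1 p.2) - φ p.2) (𝓝[S] x₀ ×ˢ cocompact Y)
        (𝓝 (F ∞ - 0)) :=
      ((hFc.tendsto _).comp hb).sub ((zero_at_infty φ).comp tendsto_snd)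
    rw [hFi, sub_zero] at e5
    have e6 := e5.eventually (Metric.closedBall_mem_nhds _ hε)
    rw [Filter.Eventually, Filter.mem_prod_iff] at e6
    obtain ⟨A, hA, B, hB, hAB⟩ := e6
    obtain ⟨K, hK, hKB⟩ := mem_cocompact.1 hB
    have hL : IsCompact (K \ ⋃ z ∈ {y | (g x₀).P y ≠ 0}, U z) :=
      hK.diff (isOpen_biUnion fun z hz => hUo z hz)
    have e7 := h2 Y I _ hL
    have e8 : g x₀ ∈ {c : Conf Y I | ∀ y ∈ (K \ ⋃ z ∈ {y | (g x₀).P y ≠ 0}, U z), c.P y = 0} := by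
      intro y hy
      by_contra h
      apply hy.2
      rw [mem_iUnion₂]
      exact ⟨y, h, hzU y h⟩
    have e9 : ∀ᶠ x in 𝓝[S] x₀, ∀ y ∈ (K \ ⋃ z ∈ {y | (g x₀).P y ≠ 0}, U z), (g x).P y = 0 :=
      hg.eventually (e7.mem_nhds e8)
    have e10 : ∀ᶠ x in 𝓝[S] x₀, ∀ z ∈ {y | (g x₀).P y ≠ 0}, ∀ y ∈ U z,
        |F (m x y) - φ y| ≤ ε := by
      rw [Filter.eventually_all_finite (g x₀).fin]
      exact hU
    filter_upwards [hA, e9, e10] with x hx1 hx2 hx3 y hy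
    by_cases hyU : y ∈ ⋃ z ∈ {y | (g x₀).P y ≠ 0}, U z
    · rw [mem_iUnion₂] at hyU
      obtain ⟨z, hz, hyz⟩ := hyU
      exact hx3 z hz y hyz
    · have hyK : y ∉ K := fun h => hy (hx2 y ⟨h, hyU⟩)
      have h5 := hAB (Set.mk_mem_prod hx1 (hKB hyK))
      have h6 : F (m x y) - φ y ∈ closedBall (0 : ℝ) ε := h5
      rw [mem_closedBall_zero_iff, Real.norm_eq_abs] at h6
      exact h6
  show Tendsto (fun x => ((g x).push (m x)).ev f) (𝓝[S] x₀) (𝓝 (((g x₀).push (m x₀)).ev f))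
  simp only [hev]
  have hlim : Tendsto (fun x => (g x).ev φ) (𝓝[S] x₀) (𝓝 ((g x₀).ev φ)) :=
    Conf.tendsto_iff.1 hg φ
  have h0 : (g x₀).ev (fun y => F (m x₀ y)) = (g x₀).ev φ := by
    refine ev_congr _ _ _ fun y hy => ?_
    exact (hφ y hy).self_of_nhds.symm
  rw [h0]
  have hdiff : Tendsto (fun x => (g x).ev (fun y => F (m x y) - φ y)) (𝓝[S] x₀) (𝓝 0) := by
    refine tendsto_pi_nhds.2 fun a => tendsto_pi_nhds.2 fun b => ?_
    rw [Metric.tendsto_nhds]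
    intro ε hε
    filter_upwards [key (ε / 2) (half_pos hε)] with x hx
    have h5 := h1 Y I (g x) (fun y => F (m x y) - φ y) (ε / 2) (half_pos hε).le hx a b
    show dist ((g x).ev (fun y => F (m x y) - φ y) a b) 0 < ε
    rw [dist_zero_right]
    exact lt_of_le_of_lt h5 (half_lt_self hε)
  have hsum := hdiff.add hlim
  rw [zero_add] at hsum
  refine hsum.congr fun x => ?_
  exact (ev_sub (g x) (fun y => F (m x y)) φ).symm

end Pool.Agent.Tate.Cnn
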