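import Pool.Agent.Lib.Tate.Conn.Spec

/-!
# C42, block Conn: the second homotopy
-/

set_option autoImplicit false

open Set Filter Topology Metric
open scoped OnePoint ZeroAtInfty

noncomputable section

namespace Pool.Agent.Tate.Cnn

theorem pPh (h1 : S_Pc) (h2 : S_Pa) : S_Ph := by
  intro X V I _ _ _ _ _ K g p hg hp
  have hfst : ∀ q₀ : ℝ × X, Tendsto Prod.fst (𝓝[Icc (0 : ℝ) 1 ×ˢ K] q₀) (𝓝[Icc (0 : ℝ) 1] q₀.1) := by
    rintro ⟨τ, x⟩
    rw [nhdsWithin_prod_eq]
    exact tendsto_fst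
  refine ⟨fun q => (g q.2).push (po p q.1), ?_, fun x _ => ⟨?_, ?_⟩⟩
  · intro q₀ hq₀
    refine h1 (ℝ × X) V V I (Icc (0 : ℝ) 1 ×ˢ K) q₀ (fun q => g q.2) (fun q => po p q.1) ?_ ?_ ?_
    · exact (hg q₀.2 hq₀.2).comp continuous_snd.continuousWithinAt fun q hq => hq.2
    · intro y hy
      have hyp : y ≠ p := by
        rintro rfl
        exact hy (hp q₀.2 hq₀.2)
      exact ((h2 V p q₀.1 hq₀.1).1 y hyp).comp ((hfst q₀).prodMap tendsto_id)
    · exact ((h2 V p q₀.1 hq₀.1).2).comp ((hfst q₀).prodMap tendsto_id)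
  · have h6 : (g x).push (po p (0 : ℝ)) = (g x).push (fun y : V => (y : OnePoint V)) := by
      refine Conf.push_congr fun y _ => ?_
      unfold po
      rw [if_neg (by norm_num)]
      simp
    show (g x).push (po p (0 : ℝ)) = g x
    rw [h6, Conf.push_coe]
  · show (g x).push (po p (1 : ℝ)) = default
    refine Conf.push_infty fun y _ => ?_
    unfold po
    rw [if_pos le_rfl]

end Pool.Agent.Tate.Cnn
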