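import Pool.Agent.Lib.Tate.Conn.Spec

/-!
# C42 (MP_071d69_gt), Conn/Us: the support is upper semicontinuous (helper82)
-/

set_option autoImplicit false

open Set Filter Topology Metric
open scoped OnePoint ZeroAtInfty

noncomputable section

namespace Pool.Agent.Tate.Cnn

theorem pUs (hN2 : S_N2) : S_Us := by
  intro Y I _ _ _ _ K hK
  rw [isOpen_iff_mem_nhds]
  intro c hc
  have hcl : IsClosed {y | c.P y ≠ 0} := c.fin.isClosed
  have hd : Disjoint K {y | c.P y ≠ 0} := by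
    rw [Set.disjoint_left]
    intro y hy h
    exact h (hc y hy)
  obtain ⟨f, hf1, hf0, hfc, -⟩ := exists_continuous_one_zero_of_isCompact hK hcl hd
  let φ : C₀(Y, ℝ) := ⟨f, hfc.is_zero_at_infty⟩
  have hφ : ∀ y, φ y = f y := fun y => rfl
  have h0 : c.ev φ = 0 := by
    rw [Conf.ev_eq_sum]
    refine Finset.sum_eq_zero fun y hy => ?_
    have h1 : y ∈ {y | c.P y ≠ 0} := by simpa using hy
    rw [hφ, hf0 h1]
    simp
  have hev : Tendsto (fun c' : Conf Y I => c'.ev φ) (𝓝 c) (𝓝 (c.ev φ)) :=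
    (Conf.tendsto_iff (g := fun c' : Conf Y I => c')).1 tendsto_id φ
  have hnorm : Tendsto (fun c' : Conf Y I => ∑ a, ∑ b, ‖c'.ev φ a b‖) (𝓝 c) (𝓝 0) := by
    have h1 : Tendsto (fun c' : Conf Y I => ∑ a, ∑ b, ‖c'.ev φ a b‖) (𝓝 c)
        (𝓝 (∑ a, ∑ b, ‖c.ev φ a b‖)) := by
      refine tendsto_finsetSum _ fun a _ => tendsto_finsetSum _ fun b _ => ?_
      exact ((tendsto_pi_nhds.1 (tendsto_pi_nhds.1 hev a)) b).norm
    rw [h0] at h1
    simpa using h1
  filter_upwards [hnorm.eventually_lt_const one_pos] with c' hc' y hy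
  by_contra hcon
  have h1 := hN2 Y I c' φ y hcon
  rw [hφ, hf1 hy] at h1
  simp only [Pi.one_apply, abs_one] at h1
  linarith

end Pool.Agent.Tate.Cnn
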