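import Pool.Agent.Lib.Tate.Conn.Spec

/-!
# C42, block Conn: pushing to infinity (task of helper35, by helper77)
-/

set_option autoImplicit false

open Set Filter Topology Metric
open scoped OnePoint ZeroAtInfty

noncomputable section

namespace Pool.Agent.Tate.Cnn

namespace pPaAux

variable {V : Type} [NormedAddCommGroup V] [NormedSpace ℝ V]

theorem tend_inf {α : Type*} {l : Filter α} {G : α → OnePoint V}
    (h : ∀ R : ℝ, ∀ᶠ a in l, ∀ v : V, G a = v → R < ‖v‖) : Tendsto G l (𝓝 ∞) := by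
  rw [OnePoint.hasBasis_nhds_infty.tendsto_right_iff]
  rintro K ⟨-, hK⟩
  obtain ⟨R, hR⟩ := hK.isBounded.exists_norm_le
  filter_upwards [h R] with a ha
  cases hG : G a using OnePoint.rec with
  | infty => exact Or.inr rfl
  | coe v =>
    refine Or.inl ⟨v, fun hv => ?_, rfl⟩
    exact absurd (ha v hG) (not_lt.2 (hR v hv))

theorem po_val {p y v : V} {τ : ℝ} (h : po p τ y = v) :
    τ < 1 ∧ v = p + (1 - τ)⁻¹ • (y - p) := by
  unfold po at h
  by_cases h1 : 1 ≤ τ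
  · rw [if_pos h1] at h
    exact absurd h (OnePoint.infty_ne_coe _)
  · rw [if_neg h1] at h
    exact ⟨not_le.1 h1, (OnePoint.coe_injective h).symm⟩

theorem po_norm {p y v : V} {τ : ℝ} (h : po p τ y = v) :
    0 < 1 - τ ∧ (1 - τ) * ‖v - p‖ = ‖y - p‖ := by
  obtain ⟨h1, rfl⟩ := po_val h
  have h2 : 0 < 1 - τ := by linarith
  refine ⟨h2, ?_⟩
  rw [add_sub_cancel_left, norm_smul, norm_inv, Real.norm_of_nonneg h2.le, ← mul_assoc,
    mul_inv_cancel₀ h2.ne', one_mul]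

end pPaAux

open pPaAux in
/-- **Pa.** Pushing to infinity. -/
theorem pPa : S_Pa := by
  intro V _ _ _ p τ₀ hτ₀
  refine ⟨fun y₀ hy₀ => ?_, ?_⟩
  · rcases lt_or_eq_of_le hτ₀.2 with h1 | h1
    · have hv : po p τ₀ y₀ = ((p + (1 - τ₀)⁻¹ • (y₀ - p) : V) : OnePoint V) :=
        if_neg (not_le.2 h1)
      rw [hv]
      have hle : 𝓝[Icc (0 : ℝ) 1] τ₀ ×ˢ 𝓝 y₀ ≤ 𝓝 ((τ₀, y₀) : ℝ × V) := by
        rw [nhds_prod_eq]
        exact Filter.prod_mono nhdsWithin_le_nhds le_rfl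
      have hc : ContinuousAt (fun q : ℝ × V => p + (1 - q.1)⁻¹ • (q.2 - p)) (τ₀, y₀) := by
        have h2 : (1 : ℝ) - τ₀ ≠ 0 := by linarith
        have h3 : ContinuousAt (fun q : ℝ × V => (1 - q.1)⁻¹) (τ₀, y₀) :=
          ContinuousAt.inv₀ (by fun_prop) h2
        exact continuousAt_const.add (h3.smul (by fun_prop))
      have ht : Tendsto (fun q : ℝ × V => ((p + (1 - q.1)⁻¹ • (q.2 - p) : V) : OnePoint V))
          (𝓝[Icc (0 : ℝ) 1] τ₀ ×ˢ 𝓝 y₀) (𝓝 ((p + (1 - τ₀)⁻¹ • (y₀ - p) : V) : OnePoint V)) :=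
        ((OnePoint.continuous_coe.continuousAt.comp hc).tendsto).mono_left hle
      refine ht.congr' ?_
      have hlt : ∀ᶠ q : ℝ × V in 𝓝 (τ₀, y₀), q.1 < 1 :=
        (continuous_fst.tendsto ((τ₀, y₀) : ℝ × V)).eventually (Iio_mem_nhds h1)
      filter_upwards [hle hlt] with q hq
      exact (if_neg (not_le.2 hq)).symm
    · have hv : po p τ₀ y₀ = ∞ := if_pos h1.ge
      rw [hv]
      apply tend_inf
      intro R
      set δ := ‖y₀ - p‖ with hδ
      have hδ0 : 0 < δ := norm_pos_iff.2 (sub_ne_zero.2 hy₀)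
      set R' := |R| + ‖p‖ + 1 with hR'
      have e1 : ∀ᶠ τ in 𝓝[Icc (0 : ℝ) 1] τ₀, (1 - τ) * R' < δ / 2 := by
        apply nhdsWithin_le_nhds
        have hc : Continuous fun τ : ℝ => (1 - τ) * R' := by fun_prop
        refine (hc.tendsto τ₀).eventually (isOpen_Iio.mem_nhds ?_)
        rw [h1]
        simp only [sub_self, zero_mul, mem_Iio]
        linarith
      have e2 : ∀ᶠ y in 𝓝 y₀, δ / 2 < ‖y - p‖ := by
        have hc : Continuous fun y : V => ‖y - p‖ := by fun_prop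
        refine (hc.tendsto y₀).eventually (isOpen_Ioi.mem_nhds ?_)
        simp only [mem_Ioi]
        linarith
      filter_upwards [e1.prod_mk e2] with q hq v hqv
      obtain ⟨h2, h3⟩ := po_norm hqv
      have h4 : (1 - q.1) * R' < (1 - q.1) * ‖v - p‖ := by
        rw [h3]
        exact hq.1.trans hq.2
      have h5 : R' < ‖v - p‖ := lt_of_mul_lt_mul_left h4 h2.le
      have h6 : ‖v - p‖ ≤ ‖v‖ + ‖p‖ := norm_sub_le v p
      have h7 := le_abs_self R
      linarith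
  · apply tend_inf
    intro R
    have e1 : ∀ᶠ τ in 𝓝[Icc (0 : ℝ) 1] τ₀, τ ∈ Icc (0 : ℝ) 1 := self_mem_nhdsWithin
    have e2 : ∀ᶠ y in cocompact V, R + 2 * ‖p‖ < ‖y‖ :=
      (tendsto_norm_cocompact_atTop (E := V)).eventually (eventually_gt_atTop _)
    filter_upwards [e1.prod_mk e2] with q hq v hqv
    obtain ⟨h2, h3⟩ := po_norm hqv
    have h0 := hq.1.1
    have h5 : (1 - q.1) * ‖v - p‖ ≤ ‖v - p‖ := by
      have := norm_nonneg (v - p)
      nlinarith
    have h6 : ‖v - p‖ ≤ ‖v‖ + ‖p‖ := norm_sub_le v p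
    have h7 : ‖q.2‖ ≤ ‖q.2 - p‖ + ‖p‖ := by
      have := norm_add_le (q.2 - p) p
      rwa [sub_add_cancel] at this
    have h8 := hq.2
    linarith

end Pool.Agent.Tate.Cnn
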