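import Pool.Agent.Lib.Tate.Conn.Spec

/-!
# C42, Conn/Bu: functions with given values near finitely many points
-/

set_option autoImplicit false

open Set Filter Topology Metric
open scoped OnePoint ZeroAtInfty

noncomputable section

namespace Pool.Agent.Tate.Cnn

theorem bu_aux {Y : Type} [TopologicalSpace Y] [T2Space Y] [LocallyCompactSpace Y] (a : Y → ℝ)
    {Z : Set Y} (hZ : Z.Finite) :
    ∃ f : Y → ℝ, Continuous f ∧ HasCompactSupport f ∧ ∀ z ∈ Z, ∀ᶠ y in 𝓝 z, f y = a z := by
  induction Z, hZ using Set.Finite.induction_on with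
  | empty => exact ⟨fun _ => 0, continuous_const, HasCompactSupport.zero, fun z hz => absurd hz (by simp)⟩
  | @insert z Z hz hZf ih =>
    obtain ⟨f, hf, hfc, hfz⟩ := ih
    obtain ⟨K, hK, hzK, hKZ⟩ := exists_compact_subset hZf.isClosed.isOpen_compl
      (show z ∈ Zᶜ from hz)
    obtain ⟨K₂, hK₂, hzK₂, hK₂K⟩ := exists_compact_subset isOpen_interior hzK
    obtain ⟨χ, h1, h0, hc, -⟩ := exists_continuous_one_zero_of_isCompact hK₂
      (isOpen_interior (s := K)).isClosed_compl
      (Set.disjoint_left.2 fun y hy hy' => hy' (hK₂K hy))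
    refine ⟨fun y => f y * (1 - χ y) + a z * χ y, ?_, ?_, ?_⟩
    · exact (hf.mul (continuous_const.sub χ.continuous)).add (continuous_const.mul χ.continuous)
    · exact (hfc.mul_right).add (hc.mul_left)
    · intro z' hz'
      rcases Set.mem_insert_iff.1 hz' with rfl | hz'
      · filter_upwards [mem_interior_iff_mem_nhds.1 hzK₂] with y hy
        rw [h1 hy]
        simp
      · have hz'K : z' ∉ K := fun h => hKZ h hz'
        filter_upwards [hfz z' hz', hK.isClosed.isOpen_compl.mem_nhds hz'K] with y hy hyK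
        have h2 : χ y = 0 := h0 fun h => hyK (interior_subset h)
        rw [hy, h2]
        simp

theorem pBu : S_Bu := by
  intro Y _ _ _ Z a hZ
  obtain ⟨f, hf, hfc, hfz⟩ := bu_aux a hZ
  exact ⟨⟨⟨f, hf⟩, hfc.is_zero_at_infty⟩, hfc, hfz⟩

end Pool.Agent.Tate.Cnn
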