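import Pool.Agent.Lib.Tate.Conn.Spec

/-!
# C42, block Conn: existence of the data of a motion
-/

set_option autoImplicit false

open Set Filter Topology Metric
open scoped OnePoint ZeroAtInfty

noncomputable section

namespace Pool.Agent.Tate.Cnn

theorem pDa (h1 : S_Os) (h2 : S_Lb) : S_Da := by
  intro V I _ _ _ _ n g hn hg
  obtain ⟨δ, hδ, hL⟩ := h2 (Fin n → ℝ) V I (sphere 0 1) g (isCompact_sphere _ _) hg
  obtain ⟨ι, inst, D, t, hDc, hDd, htc, ht0, htD, hex, hcard⟩ := h1 n hn δ hδ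
  choose W κ hclu hsup using fun Q => hL (D Q) (hDd Q)
  refine ⟨ι, inst, t, κ, ?_⟩
  refine ⟨htc, ht0, hex, hcard, fun Q => (hclu Q).near, fun Q => (hclu Q).fin, ?_, ?_⟩
  · intro x hx y hy Q
    by_cases hxD : x ∈ D Q
    · exact Or.inl ((hclu Q).loc y (hsup Q x ⟨hxD, hx⟩ y hy))
    · refine Or.inr (eventually_nhdsWithin_of_eventually_nhds ?_)
      have hm : (D Q)ᶜ ∈ 𝓝 x := (hDc Q).isOpen_compl.mem_nhds hxD
      filter_upwards [hm] with x' hx'
      by_contra hcon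
      exact hx' (htD Q x' hcon)
  · intro x hx y hy Q htQ hκ
    exact (hclu Q).far y (hsup Q x ⟨htD Q x htQ, hx⟩ y hy) hκ

end Pool.Agent.Tate.Cnn
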