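import Pool.Agent.Lib.Tate.Conn.Spec

/-!
# C42 (MP_071d69_gt), Conn/N1: upper bound for `ev` (helper82)
-/

set_option autoImplicit false

open Set Filter Topology Metric
open scoped OnePoint ZeroAtInfty

noncomputable section

namespace Pool.Agent.Tate.Cnn

namespace N1Aux

variable {I : Type} [Fintype I]

theorem diag {P : Matrix I I ℂ} (hH : P.IsHermitian) (hI : P * P = P) (a : I) :
    (P a a).re = ∑ k, ‖P a k‖ ^ 2 := by
  have h1 : P a a = ∑ k, P a k * P k a := by
    conv_lhs => rw [← hI]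
    exact Matrix.mul_apply
  rw [h1, Complex.re_sum]
  refine Finset.sum_congr rfl fun k _ => ?_
  have h2 : P k a = (starRingEnd ℂ) (P a k) := (hH.apply k a).symm
  rw [h2, Complex.mul_conj, Complex.ofReal_re, Complex.normSq_eq_norm_sq]

theorem entry {P : Matrix I I ℂ} (hH : P.IsHermitian) (hI : P * P = P) (a b : I) :
    ‖P a b‖ ≤ ((P a a).re + (P b b).re) / 2 := by
  have h1 : P a b = ∑ k, P a k * P k b := by
    conv_lhs => rw [← hI]
    exact Matrix.mul_apply
  rw [diag hH hI a, diag hH hI b, ← Finset.sum_add_distrib, Finset.sum_div, h1]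
  refine (norm_sum_le _ _).trans (Finset.sum_le_sum fun k _ => ?_)
  have h2 : ‖P k b‖ = ‖P b k‖ := by
    rw [← hH.apply k b, norm_star]
  rw [norm_mul, h2]
  nlinarith [sq_nonneg (‖P a k‖ - ‖P b k‖)]

theorem diag_le {P : Matrix I I ℂ} (hH : P.IsHermitian) (hI : P * P = P) (a : I) :
    (P a a).re ≤ 1 := by
  have h1 := diag hH hI a
  have h2 : ‖P a a‖ ^ 2 ≤ ∑ k, ‖P a k‖ ^ 2 :=
    Finset.single_le_sum (f := fun k => ‖P a k‖ ^ 2) (fun k _ => sq_nonneg _) (Finset.mem_univ a)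
  have h3 : |(P a a).re| ≤ ‖P a a‖ := Complex.abs_re_le_norm _
  have h4 : (P a a).re ^ 2 ≤ ‖P a a‖ ^ 2 := by
    rw [← sq_abs]
    exact pow_le_pow_left₀ (abs_nonneg _) h3 2
  nlinarith

end N1Aux

theorem pN1 : S_N1 := by
  classical
  intro Y I _ c f ε hε hf a b
  rw [Conf.ev_apply]
  have hsum : ∑ y ∈ c.fin.toFinset, ‖c.P y a b‖ ≤ 1 := by
    have hQ : ∀ d : I, ∑ y ∈ c.fin.toFinset, (c.P y d d).re ≤ 1 := by
      intro d
      have hH : (∑ y ∈ c.fin.toFinset, c.P y).IsHermitian := by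
        rw [Matrix.IsHermitian, Matrix.conjTranspose_sum]
        exact Finset.sum_congr rfl fun y _ => c.herm y
      have hI : (∑ y ∈ c.fin.toFinset, c.P y) * (∑ y ∈ c.fin.toFinset, c.P y) =
          ∑ y ∈ c.fin.toFinset, c.P y := by
        rw [Finset.sum_mul_sum]
        refine Finset.sum_congr rfl fun y hy => ?_
        rw [Finset.sum_eq_single y (fun z _ hz => c.orth _ _ hz.symm) (fun h => absurd hy h),
          c.idem]
      have h1 := N1Aux.diag_le hH hI d
      rw [Matrix.sum_apply, Complex.re_sum] at h1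
      exact h1
    calc ∑ y ∈ c.fin.toFinset, ‖c.P y a b‖
        ≤ ∑ y ∈ c.fin.toFinset, ((c.P y a a).re + (c.P y b b).re) / 2 :=
          Finset.sum_le_sum fun y _ => N1Aux.entry (c.herm y) (c.idem y) a b
      _ = (∑ y ∈ c.fin.toFinset, (c.P y a a).re + ∑ y ∈ c.fin.toFinset, (c.P y b b).re) / 2 := by
          rw [← Finset.sum_add_distrib, Finset.sum_div]
      _ ≤ 1 := by
          have h1 := hQ a
          have h2 := hQ b
          linarith
  calc ‖∑ y ∈ c.fin.toFinset, (f y : ℂ) * c.P y a b‖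
      ≤ ∑ y ∈ c.fin.toFinset, ‖(f y : ℂ) * c.P y a b‖ := norm_sum_le _ _
    _ ≤ ∑ y ∈ c.fin.toFinset, ε * ‖c.P y a b‖ := by
        refine Finset.sum_le_sum fun y hy => ?_
        rw [norm_mul, Complex.norm_real, Real.norm_eq_abs]
        refine mul_le_mul_of_nonneg_right (hf y ?_) (norm_nonneg _)
        simpa using hy
    _ = ε * ∑ y ∈ c.fin.toFinset, ‖c.P y a b‖ := by rw [Finset.mul_sum]
    _ ≤ ε * 1 := mul_le_mul_of_nonneg_left hsum hε
    _ = ε := mul_one ε

end Pool.Agent.Tate.Cnn
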