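import Pool.Agent.Lib.Tate.Conf
import Pool.Agent.Lib.Tate.Inj.Spec

/-!
# C42 (MP_071d69_gt), block Conn (helper35): connectivity of the spaces of finite configurations

Main result `S_Cn`: for a real normed space `V` of dimension `q` and `n ≤ q`, every continuous map of the unit
sphere of an `n`-dimensional normed space to `Conf V I` extends to the ball (`π_k (Conf V I) = 0` for `k < q`).

Idea.  Let `g` be defined on the sphere `K` of `ℝ^n` (maximum norm).  For `x` in a small closed set `D` the points of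
`g x` lie in finitely many small disjoint balls or far out (`Clu`).  `K` is covered by small sets `D_Q` with
functions `t_Q`, such that every point lies in at most `n` sets (Ostrand: `n` colours, `S_Os`).  The points `y` of
`g x` are moved to the average of the `≤ n` centres of their balls with the weights `t_Q x` (`mo`; if some of the
clusters are at infinity, then the average is multiplied with a factor which becomes large).  At the end all
points of all `g x` lie in finitely many affine subspaces of dimension `≤ n - 1 < q`.  So there is a point `p` which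
is not used, and all points can be moved from `p` to infinity (`po`).

Complete proofs in the docstrings.  Statement `S_X` is proved by `theorem pX` in
`Pool/Agent/Lib/Tate/Conn/X.lean` (namespace `Pool.Agent.Tate.Cnn`); the statements which are used are
hypotheses of the theorem.  `Conf`, `ev`, `push` with their first properties are in `Tate/Conf.lean`.
-/

set_option autoImplicit false

open Set Filter Topology Metric
open scoped OnePoint ZeroAtInfty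

noncomputable section

namespace Pool.Agent.Tate.Cnn

/-! ### Definitions -/

/-- `f` and `f'` are homotopic on the set `K`. -/
def HK {X Y : Type} [TopologicalSpace X] [TopologicalSpace Y] (K : Set X) (f f' : X → Y) : Prop :=
  ∃ H : ℝ × X → Y, ContinuousOn H (Icc (0 : ℝ) 1 ×ˢ K) ∧ ∀ x ∈ K, H (0, x) = f x ∧ H (1, x) = f' x

/-- Clusters: `κ y` is a point at distance at most `1` from `y`, or `∞`; `κ` is locally constant on `W`, and
in `W` it is `∞` only far out. -/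
structure Clu {V : Type} [NormedAddCommGroup V] [NormedSpace ℝ V] (W : Set V)
    (κ : V → OnePoint V) : Prop where
  loc : ∀ y ∈ W, ∀ᶠ y' in 𝓝 y, κ y' = κ y
  near : ∀ (y z : V), κ y = z → ‖z - y‖ ≤ 1
  far : ∀ y ∈ W, κ y = ∞ → 3 < ‖y‖
  fin : {z : V | ∃ y, κ y = z}.Finite

/-- The denominator of the motion; `p = (τ, x)` with the time `τ`. -/
def mF {X V ι : Type} [Fintype ι] (t : ι → X → ℝ) (κ : ι → V → OnePoint V) (p : ℝ × X) (y : V) : ℝ :=
  open Classical in (1 - p.1) + ∑ Q, if κ Q y = ∞ then 0 else p.1 * t Q p.2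

/-- The numerator of the motion. -/
def mT {X ι : Type} [Fintype ι] (t : ι → X → ℝ) (p : ℝ × X) : ℝ := (1 - p.1) + ∑ Q, p.1 * t Q p.2

/-- The weighted sum of `y` and of the finite centres. -/
def mA {X V ι : Type} [Fintype ι] [NormedAddCommGroup V] [NormedSpace ℝ V] (t : ι → X → ℝ)
    (κ : ι → V → OnePoint V) (p : ℝ × X) (y : V) : V :=
  (1 - p.1) • y + ∑ Q, (p.1 * t Q p.2) • OnePoint.elim (κ Q y) (0 : V) id

/-- The motion of the points. -/
def mo {X V ι : Type} [Fintype ι] [NormedAddCommGroup V] [NormedSpace ℝ V] (t : ι → X → ℝ)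
    (κ : ι → V → OnePoint V) (p : ℝ × X) (y : V) : OnePoint V :=
  open Classical in
  if mF t κ p y = 0 then ∞ else ((((mT t p / mF t κ p y ^ 2) • mA t κ p y : V)) : OnePoint V)

/-- The data of a motion for the map `g` on `K`. -/
structure Dat {X V I ι : Type} [TopologicalSpace X] [NormedAddCommGroup V] [NormedSpace ℝ V] [Fintype I]
    [Fintype ι] (K : Set X) (g : X → Conf V I) (n : ℕ) (t : ι → X → ℝ) (κ : ι → V → OnePoint V) :
    Prop where
  cont : ∀ Q, Continuous (t Q)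
  nn : ∀ Q x, 0 ≤ t Q x
  pos : ∀ x ∈ K, ∃ Q, t Q x ≠ 0
  card : ∀ x ∈ K, {Q | t Q x ≠ 0}.ncard ≤ n
  near : ∀ Q, ∀ (y z : V), κ Q y = z → ‖z - y‖ ≤ 1
  fin : ∀ Q, {z : V | ∃ y, κ Q y = z}.Finite
  loc : ∀ x ∈ K, ∀ y, (g x).P y ≠ 0 → ∀ Q,
    (∀ᶠ y' in 𝓝 y, κ Q y' = κ Q y) ∨ ∀ᶠ x' in 𝓝[K] x, t Q x' = 0
  far : ∀ x ∈ K, ∀ y, (g x).P y ≠ 0 → ∀ Q, t Q x ≠ 0 → κ Q y = ∞ → 3 < ‖y‖

/-- Pushing from `p` to infinity. -/
def po {V : Type} [NormedAddCommGroup V] [NormedSpace ℝ V] (p : V) (τ : ℝ) (y : V) : OnePoint V :=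
  if 1 ≤ τ then ∞ else ((p + (1 - τ)⁻¹ • (y - p) : V) : OnePoint V)

/-! ### Estimates for configurations -/

/-- **N1.** Upper bound.

Proof. `|∑ f(y) P_y(a, b)| ≤ ε ∑ |P_y(a, b)|`.  `P_y = P_y P_yᴴ` gives
`|P_y(a, b)| ≤ ∑_k |P_y(a, k)| |P_y(b, k)| ≤ (∑_k |P_y(a, k)|² + ∑_k |P_y(b, k)|²) / 2 = (P_y(a, a) + P_y(b, b)) / 2`
(real numbers).  `Q = ∑_y P_y` (the sum over the support) is hermitian with `Q Q = Q`, so
`Q(a, a) = ∑_k |Q(a, k)|² ≥ Q(a, a)²`, hence `Q(a, a) ≤ 1`.  So `∑_y |P_y(a, b)| ≤ (Q(a, a) + Q(b, b)) / 2 ≤ 1`. -/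
def S_N1 : Prop := ∀ (Y I : Type) [Fintype I] (c : Conf Y I) (f : Y → ℝ) (ε : ℝ), 0 ≤ ε →
  (∀ y, c.P y ≠ 0 → |f y| ≤ ε) → ∀ a b, ‖c.ev f a b‖ ≤ ε

/-- **N2.** Lower bound.

Proof. `c.ev f * c.P y = f(y) P_y` (`orth`, `idem`).  Let `|P_y(a, b)|` be maximal for `(a, b)`; it is positive.
`|f(y)| |P_y(a, b)| = |∑_k ev(a, k) P_y(k, b)| ≤ (∑_k |ev(a, k)|) |P_y(a, b)|`.  Divide. -/
def S_N2 : Prop := ∀ (Y I : Type) [Fintype I] (c : Conf Y I) (f : Y → ℝ) (y : Y), c.P y ≠ 0 →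
  |f y| ≤ ∑ a, ∑ b, ‖c.ev f a b‖

/-- **Us.** The support is upper semicontinuous.  (Uses `S_N2`.)

Proof. Let `c` be in the set, `Z` its support, finite, so closed, disjoint from `K`.  There is a continuous function `φ` with
compact support, `φ = 1` on `K`, `φ = 0` on `Z` (`exists_continuous_one_zero_of_isCompact_of_isClosed` or similar; an
element of `C₀(Y, ℝ)`).  `c.ev φ = 0`, so the set of the `c'` with `∑ a, ∑ b, ‖c'.ev φ a b‖ < 1` is an open neighbourhood of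
`c`, and for such `c'` no `y ∈ K` is in the support: `S_N2`, `|φ y| = 1`. -/
def S_Us : Prop := ∀ (Y I : Type) [TopologicalSpace Y] [T2Space Y] [LocallyCompactSpace Y] [Fintype I]
  (K : Set Y), IsCompact K → IsOpen {c : Conf Y I | ∀ y ∈ K, c.P y = 0}

/-- **Bu.** Functions with given values near finitely many points.

Proof. Disjoint open neighbourhoods `U_z` (`Set.Finite.t2_separation`), compact neighbourhoods `K_z ⊆ U_z` of `z`, continuous
functions `χ_z` with compact support, `χ_z = 1` on `K_z`, `χ_z = 0` outside `U_z`; `φ = ∑ a(z) χ_z`. -/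
def S_Bu : Prop := ∀ (Y : Type) [TopologicalSpace Y] [T2Space Y] [LocallyCompactSpace Y] (Z : Set Y)
  (a : Y → ℝ), Z.Finite → ∃ φ : C₀(Y, ℝ), HasCompactSupport φ ∧ ∀ z ∈ Z, ∀ᶠ y in 𝓝 z, φ y = a z

/-- **Pc.** Continuity of `push`.  (Uses `S_N1`, `S_Us`, `S_Bu`.)

Proof. Let `f ∈ C₀(Y', ℝ)` and `F p = OnePoint.elim p 0 f`, continuous on `OnePoint Y'`.  `(push m c).ev f = c.ev (F ∘ m)`
(`Conf.ev_push`).  `Z` = support of `g x₀`.  `φ` from `S_Bu` with the values `φ(z) = F (m x₀ z)` near `z ∈ Z`.  Let `ε > 0`.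
By (a) there are for `z ∈ Z` a set `A_z ∈ 𝓝[S] x₀` and an open neighbourhood `U_z` of `z` with
`|F (m x y) - F (m x₀ z)| ≤ ε` and `φ(y) = F (m x₀ z)` for `x ∈ A_z`, `y ∈ U_z`.  By (b) there are `A ∈ 𝓝[S] x₀` and a
compact set `K` with `|F (m x y)| ≤ ε` for `x ∈ A`, `y ∉ K`; enlarge `K` such that `φ = 0` outside `K`.  The set
`L = K ∖ ⋃ U_z` is compact and disjoint from `Z`; by `S_Us` the support of `g x` is disjoint from `L` for `x` near `x₀` in
`S`.  So for these `x` and every `y` in the support of `g x`: `|F (m x y) - φ(y)| ≤ ε`, and by `S_N1` the entries of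
`(g x).ev (F ∘ m x) - (g x).ev φ = (g x).ev (F ∘ m x - φ)` are at most `ε`.  `(g x).ev φ` tends to
`(g x₀).ev φ = (g x₀).ev (F ∘ m x₀)` (equal values on `Z`). -/
def S_Pc : Prop := ∀ (X Y Y' I : Type) [TopologicalSpace X] [TopologicalSpace Y] [T2Space Y]
  [LocallyCompactSpace Y] [TopologicalSpace Y'] [T2Space Y'] [Fintype I] (S : Set X) (x₀ : X)
  (g : X → Conf Y I) (m : X → Y → OnePoint Y'), ContinuousWithinAt g S x₀ →
  (∀ y, (g x₀).P y ≠ 0 →
    Tendsto (fun p : X × Y => m p.1 p.2) (𝓝[S] x₀ ×ˢ 𝓝 y) (𝓝 (m x₀ y))) →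
  Tendsto (fun p : X × Y => m p.1 p.2) (𝓝[S] x₀ ×ˢ cocompact Y) (𝓝 ∞) →
  ContinuousWithinAt (fun x => (g x).push (m x)) S x₀

/-! ### The cover -/

/-- **Os.** Ostrand's cover of the sphere of `ℝ^n` with the maximum norm.

Proof. `N` a natural number with `1/N < δ`.  Index set: pairs `(c, q)`, `c ∈ {1, …, n}`, `q` a function from `Fin n` to the
integers in `[-N - 1, N]`.  `s(u) = max 0 (min u (1 - u))`, so `s(u) ≠ 0` iff `0 < u < 1`.
`t x = ∏_i s (N x_i - c/(n+1) - q_i)`, `D = {x | ∀ i, 0 ≤ N x_i - c/(n+1) - q_i ≤ 1}` (coordinates of points of `D` differ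
by at most `1/N`).  For fixed `x` and `c` there is at most one `q` with `t x ≠ 0` (`q_i` is the integral part of
`N x_i - c/(n+1)`), so at most `n` indices in all.  Existence: `|x_j| = 1` for some `j`.  For every `i` there is at most one
`c ∈ {0, …, n}` such that `N x_i - c/(n+1)` is an integer (the difference of two such `c` is divisible by `n + 1`).
For `i = j` this is `c = 0`.  So at most `n - 1` colours `c ∈ {1, …, n}` are bad for some `i ≠ j`; for a good colour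
`q_i = ⌊N x_i - c/(n+1)⌋ ∈ [-N - 1, N]` (as `|x_i| ≤ 1`) and `t x ≠ 0`. -/
def S_Os : Prop := ∀ n : ℕ, 1 ≤ n → ∀ δ : ℝ, 0 < δ → ∃ (ι : Type) (_ : Fintype ι)
  (D : ι → Set (Fin n → ℝ)) (t : ι → (Fin n → ℝ) → ℝ),
  (∀ Q, IsClosed (D Q)) ∧ (∀ Q, ∀ x ∈ D Q, ∀ x' ∈ D Q, dist x x' < δ) ∧ (∀ Q, Continuous (t Q)) ∧
  (∀ Q x, 0 ≤ t Q x) ∧ (∀ Q x, t Q x ≠ 0 → x ∈ D Q) ∧
  (∀ x ∈ sphere (0 : Fin n → ℝ) 1, ∃ Q, t Q x ≠ 0) ∧
  ∀ x ∈ sphere (0 : Fin n → ℝ) 1, {Q | t Q x ≠ 0}.ncard ≤ n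

/-- **Cu.** Clusters of a configuration.

Proof. `Z` the support (finite), `0 < r ≤ 1` such that the balls `ball z r`, `z ∈ Z`, are disjoint, `R = 3 + ∑ ‖z‖` (so
`ball z r ⊆ ball 0 R`).  `κ y = z` if `y ∈ ball z r`, and `κ y = ∞` if `y` is in none of the balls.  `W` = the union of the
balls and of `{R < ‖y‖}`; `Wᶜ` is closed and contained in `closedBall 0 R`. -/
def S_Cu : Prop := ∀ (V I : Type) [NormedAddCommGroup V] [NormedSpace ℝ V] [FiniteDimensional ℝ V]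
  [Fintype I] (c : Conf V I), ∃ (W : Set V) (κ : V → OnePoint V),
  Clu W κ ∧ IsCompact Wᶜ ∧ ∀ y, c.P y ≠ 0 → y ∈ W

/-- **Lb.** Clusters for all `x` in a small set.  (Uses `S_Us`, `S_Cu`.)

Proof. For `x₀ ∈ K` let `W, κ` be as in `S_Cu` for `g x₀`.  By `S_Us` the set `{c | ∀ y ∈ Wᶜ, c.P y = 0}` is open; it
contains `g x₀`.  So there is an open set `U ∋ x₀` such that the support of `g x` is in `W` for `x ∈ U ∩ K`.
`lebesgue_number_lemma_of_metric`: `δ` such that every `ball x δ`, `x ∈ K`, is in one of the sets `U`.  If `D ∩ K = ∅` use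
`S_Cu` for the empty configuration; otherwise `x ∈ D ∩ K` and `D ⊆ ball x δ`. -/
def S_Lb : Prop := ∀ (X V I : Type) [MetricSpace X] [NormedAddCommGroup V] [NormedSpace ℝ V]
  [FiniteDimensional ℝ V] [Fintype I] (K : Set X) (g : X → Conf V I), IsCompact K → ContinuousOn g K →
  ∃ δ > (0 : ℝ), ∀ D : Set X, (∀ x ∈ D, ∀ x' ∈ D, dist x x' < δ) →
    ∃ (W : Set V) (κ : V → OnePoint V), Clu W κ ∧ ∀ x ∈ D ∩ K, ∀ y, (g x).P y ≠ 0 → y ∈ W

/-- **Da.** Existence of the data.  (Uses `S_Os`, `S_Lb`.)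

Proof. `δ` from `S_Lb`, `D_Q`, `t_Q` from `S_Os`, `W_Q`, `κ_Q` from `S_Lb` for `D = D_Q`.  `loc`: if `x ∈ D_Q`, then `y ∈ W_Q` and
`Clu.loc`; if `x ∉ D_Q`, then `t_Q = 0` in the neighbourhood `(D_Q)ᶜ` of `x`.  `far`: `t_Q x ≠ 0` gives `x ∈ D_Q`,
`y ∈ W_Q`. -/
def S_Da : Prop := ∀ (V I : Type) [NormedAddCommGroup V] [NormedSpace ℝ V] [FiniteDimensional ℝ V]
  [Fintype I] (n : ℕ) (g : (Fin n → ℝ) → Conf V I), 1 ≤ n → ContinuousOn g (sphere 0 1) →
  ∃ (ι : Type) (_ : Fintype ι) (t : ι → (Fin n → ℝ) → ℝ) (κ : ι → V → OnePoint V),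
    Dat (sphere 0 1) g n t κ

/-! ### The motion -/

/-- **Mn.** Time `0` and the lower bound for the norm.

Proof. First statement: `mF = mT = 1`, `mA = y`.  Second: `mF` and `mT` differ by the terms with `κ Q y = ∞`, all
terms are nonnegative.  Third: `mA - mF • y = ∑ τ t_Q (κ_Q(y) - y)` over the `Q` with `κ_Q(y) ≠ ∞`, norm
`≤ ∑ τ t_Q ≤ mF`; so `‖mA‖ ≥ mF (‖y‖ - 1)`, and `v = (mT / mF²) • mA`, `mF > 0`. -/
def S_Mn : Prop := ∀ (X V ι : Type) [Fintype ι] [NormedAddCommGroup V] [NormedSpace ℝ V]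
  (t : ι → X → ℝ) (κ : ι → V → OnePoint V), (∀ Q x, 0 ≤ t Q x) →
  (∀ Q, ∀ (y z : V), κ Q y = z → ‖z - y‖ ≤ 1) →
  (∀ x y, mo t κ (0, x) y = y) ∧
  ∀ p : ℝ × X, p.1 ∈ Icc (0 : ℝ) 1 → ∀ y, 0 ≤ mF t κ p y ∧ mF t κ p y ≤ mT t p ∧
    ∀ v : V, mo t κ p y = v → 0 < mF t κ p y ∧ mT t p / mF t κ p y * (‖y‖ - 1) ≤ ‖v‖

/-- **Ma.** Continuity of the motion.  (Uses `S_Mn`.)

Proof. For `p` near `q₀` and `y` near `y₀` (in the filter) the sum `mF t κ p y` is
`(1 - p.1) + ∑ (if κ Q y₀ = ∞ then 0 else p.1 * t Q p.2)`: for the `Q` of the first kind because `κ Q y = κ Q y₀`, for the `Q`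
of the second kind because `t Q p.2 = 0`; so `mF` is continuous there (and its value at `q₀`, `y₀` is the limit), and in the
same way `mA`; `mT` is continuous.  If `mF t κ q₀ y₀ ≠ 0`, then `mo` is given by the formula near the point.  If
`mF t κ q₀ y₀ = 0`, then `q₀.1 = 1` and `κ Q y₀ = ∞` for all `Q` with `t Q q₀.2 ≠ 0`; there is such a `Q`, so `3 < ‖y₀‖` and
`mT t q₀ > 0`.  Near the point `‖y‖ > 2`, `mT > c > 0`, `mF → 0`, and by `S_Mn` the value of `mo` is `∞` or a vector of norm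
`≥ c / mF`, so it is outside every given compact set.  (`{v | ‖v‖ ≤ R}` compact sets are bounded.) -/
def S_Ma : Prop := ∀ (X V ι : Type) [TopologicalSpace X] [Fintype ι] [NormedAddCommGroup V]
  [NormedSpace ℝ V] (K : Set X) (t : ι → X → ℝ) (κ : ι → V → OnePoint V) (q₀ : ℝ × X) (y₀ : V),
  (∀ Q, Continuous (t Q)) → (∀ Q x, 0 ≤ t Q x) → (∀ Q, ∀ (y z : V), κ Q y = z → ‖z - y‖ ≤ 1) →
  q₀ ∈ Icc (0 : ℝ) 1 ×ˢ K → (∃ Q, t Q q₀.2 ≠ 0) →
  (∀ Q, (∀ᶠ y in 𝓝 y₀, κ Q y = κ Q y₀) ∨ ∀ᶠ x in 𝓝[K] q₀.2, t Q x = 0) →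
  (∀ Q, t Q q₀.2 ≠ 0 → κ Q y₀ = ∞ → 3 < ‖y₀‖) →
  Tendsto (fun p : (ℝ × X) × V => mo t κ p.1 p.2) (𝓝[Icc (0 : ℝ) 1 ×ˢ K] q₀ ×ˢ 𝓝 y₀)
    (𝓝 (mo t κ q₀ y₀))

/-- **Mb.** The motion near infinity.  (Uses `S_Mn`.)

Proof. For `p.1 ∈ [0, 1]`, `‖y‖ ≥ 1` the value is `∞` or a vector of norm `≥ (mT / mF) (‖y‖ - 1) ≥ ‖y‖ - 1` (`S_Mn`). -/
def S_Mb : Prop := ∀ (X V ι : Type) [TopologicalSpace X] [Fintype ι] [NormedAddCommGroup V]
  [NormedSpace ℝ V] [FiniteDimensional ℝ V] (K : Set X) (t : ι → X → ℝ) (κ : ι → V → OnePoint V)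
  (q₀ : ℝ × X), (∀ Q x, 0 ≤ t Q x) → (∀ Q, ∀ (y z : V), κ Q y = z → ‖z - y‖ ≤ 1) →
  Tendsto (fun p : (ℝ × X) × V => mo t κ p.1 p.2)
    (𝓝[Icc (0 : ℝ) 1 ×ˢ K] q₀ ×ˢ cocompact V) (𝓝 ∞)

/-- **Mf.** The end of the motion.

Proof. `mF = F = ∑ t_Q` over the set `J` of the `Q` with `t_Q x ≠ 0`, `κ_Q(y) = z_Q ≠ ∞`; `F ≠ 0`; `mT = ∑ t_Q` over the set `J'` of
the `Q` with `t_Q x ≠ 0`; `v = (mT / F²) ∑_J t_Q z_Q`.  If `J = J'`, then `mT = F`, `v = ∑_J (t_Q / F) z_Q`, an affine combination of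
the `z_Q`, `Q ∈ J`, `T = {z_Q}`.  If `J ≠ J'`, then `J` has at most `n - 1` elements, `T = {0} ∪ {z_Q}`, and `v` is a linear
combination of the `z_Q`, i.e. an affine combination of `0` and the `z_Q`. -/
def S_Mf : Prop := ∀ (X V ι : Type) [Fintype ι] [NormedAddCommGroup V] [NormedSpace ℝ V]
  (t : ι → X → ℝ) (κ : ι → V → OnePoint V) (n : ℕ) (C : Finset V) (x : X) (y v : V),
  (∀ Q x, 0 ≤ t Q x) → {Q | t Q x ≠ 0}.ncard ≤ n → 0 ∈ C → (∀ Q, ∀ (y z : V), κ Q y = z → z ∈ C) →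
  mo t κ (1, x) y = v → ∃ T ⊆ C, T.card ≤ n ∧ v ∈ affineSpan ℝ (T : Set V)

/-- **Af.** A point outside of finitely many proper affine subspaces.

Proof. For `T ⊆ C` with at most `n ≤ finrank V` elements the affine span of `T` is not `⊤` (the dimension of its direction is at most
`card T - 1 < finrank V`, `finrank_vectorSpan_image_finset_le` or similar; `T = ∅`: the empty set), so it has measure `0` for an
additive Haar measure (`MeasureTheory.Measure.addHaar_affineSubspace`; or: closed with empty interior).  A finite union of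
null sets is not the whole space. -/
def S_Af : Prop := ∀ (V : Type) [NormedAddCommGroup V] [NormedSpace ℝ V] [FiniteDimensional ℝ V]
  (C : Finset V), ∃ p : V, ∀ T ⊆ C, T.card ≤ Module.finrank ℝ V → p ∉ affineSpan ℝ (T : Set V)

/-- **Pa.** Pushing to infinity.

Proof. First statement: for `τ₀ < 1` composition of continuous maps.  For `τ₀ = 1`: the value is `∞`; for `τ < 1`, `y` near `y₀`:
`‖p + (1 - τ)⁻¹ (y - p)‖ ≥ (1 - τ)⁻¹ ‖y₀ - p‖ / 2 - ‖p‖`, which tends to infinity.  Second: for `0 ≤ τ < 1` the norm is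
`≥ ‖y - p‖ - ‖p‖`. -/
def S_Pa : Prop := ∀ (V : Type) [NormedAddCommGroup V] [NormedSpace ℝ V] [FiniteDimensional ℝ V]
  (p : V) (τ₀ : ℝ), τ₀ ∈ Icc (0 : ℝ) 1 →
  (∀ y₀ : V, y₀ ≠ p → Tendsto (fun q : ℝ × V => po p q.1 q.2) (𝓝[Icc (0 : ℝ) 1] τ₀ ×ˢ 𝓝 y₀)
    (𝓝 (po p τ₀ y₀))) ∧
  Tendsto (fun q : ℝ × V => po p q.1 q.2) (𝓝[Icc (0 : ℝ) 1] τ₀ ×ˢ cocompact V) (𝓝 ∞)

/-! ### Homotopies -/

/-- **Ht.** Transitivity.

Proof. `H (t, x) = H₁ (2t, x)` for `t ≤ 1/2`, `H₂ (2t - 1, x)` for `t ≥ 1/2`. -/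
def S_Ht : Prop := ∀ (X Y : Type) [TopologicalSpace X] [TopologicalSpace Y] (K : Set X)
  (f f' f'' : X → Y), HK K f f' → HK K f' f'' → HK K f f''

/-- **Ba.** Null homotopic maps extend to the ball.

Proof. `g x = y0` for `‖x‖ ≤ 1/2`, `g x = H (2 - 2 ‖x‖, ‖x‖⁻¹ • x)` for `‖x‖ ≥ 1/2`; the two formulas agree for `‖x‖ = 1/2`. -/
def S_Ba : Prop := ∀ (E Y : Type) [NormedAddCommGroup E] [NormedSpace ℝ E] [TopologicalSpace Y]
  (f : E → Y) (y0 : Y), HK (sphere 0 1) f (fun _ => y0) →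
  ∃ g : E → Y, ContinuousOn g (closedBall 0 1) ∧ ∀ x ∈ sphere (0 : E) 1, g x = f x

/-- **Mh.** The first homotopy.  (Uses `S_Pc`, `S_Ma`, `S_Mb`, `S_Mn`.)

Proof. `H p = (g p.2).push (mo t κ p)`.  Continuity within `[0, 1] × K` at `q₀`: `S_Pc` for the space `ℝ × X`, with
`(fun p => g p.2)` (continuous within `[0, 1] × K`) and `m = mo t κ`; (a) is `S_Ma` (with `Dat.loc`, `Dat.far` for the points of
`g q₀.2`), (b) is `S_Mb`.  `H (0, x) = g x`: `S_Mn`, `Conf.push_coe`. -/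
def S_Mh : Prop := ∀ (X V I ι : Type) [TopologicalSpace X] [NormedAddCommGroup V] [NormedSpace ℝ V]
  [FiniteDimensional ℝ V] [Fintype I] [Fintype ι] (K : Set X) (g : X → Conf V I) (n : ℕ)
  (t : ι → X → ℝ) (κ : ι → V → OnePoint V), Dat K g n t κ → ContinuousOn g K →
  HK K g (fun x => (g x).push (mo t κ (1, x))) ∧
  ContinuousOn (fun x => (g x).push (mo t κ (1, x))) K

/-- **Me.** A point which is not used at the end.  (Uses `S_Mf`, `S_Af`.)

Proof. `C` = the finite set of all centres (`Dat.fin`) and `0`, `p` from `S_Af`.  If `(push ..).P v ≠ 0`, then `v = mo t κ (1, x) y`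
for some `y` (`Conf.exists_of_push_ne`) and `S_Mf` gives `v ∈ affineSpan ℝ T`, so `v ≠ p`. -/
def S_Me : Prop := ∀ (X V I ι : Type) [TopologicalSpace X] [NormedAddCommGroup V] [NormedSpace ℝ V]
  [FiniteDimensional ℝ V] [Fintype I] [Fintype ι] (K : Set X) (g : X → Conf V I) (n : ℕ)
  (t : ι → X → ℝ) (κ : ι → V → OnePoint V), Dat K g n t κ → n ≤ Module.finrank ℝ V →
  ∃ p : V, ∀ x ∈ K, ((g x).push (mo t κ (1, x))).P p = 0

/-- **Ph.** The second homotopy.  (Uses `S_Pc`, `S_Pa`.)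

Proof. `H q = (g q.2).push (po p q.1)`.  Continuity: `S_Pc` for `ℝ × X`, `S_Pa` composed with
`((τ, x), y) ↦ (τ, y)` (`𝓝[[0, 1] × K] (τ₀, x₀) = 𝓝[[0, 1]] τ₀ ×ˢ 𝓝[K] x₀`); the points of `g q₀.2` are `≠ p`.
`H (1, x)`: `Conf.push_infty`.  `H (0, x) = g x`: `po p 0 y = y`, `Conf.push_coe`. -/
def S_Ph : Prop := ∀ (X V I : Type) [TopologicalSpace X] [NormedAddCommGroup V] [NormedSpace ℝ V]
  [FiniteDimensional ℝ V] [Fintype I] (K : Set X) (g : X → Conf V I) (p : V), ContinuousOn g K →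
  (∀ x ∈ K, (g x).P p = 0) → HK K g (fun _ => default)

/-- **Cb.** The case of the maximum norm.  (Uses `S_Da`, `S_Mh`, `S_Me`, `S_Ph`, `S_Ht`, `S_Ba`.)

Proof. `n = 0`: `Fin 0 → ℝ` has one point, every function is continuous, `g = f`.  `n ≥ 1`: data from `S_Da`; `S_Mh`, `S_Me`, `S_Ph` for
`fun x => (f x).push (mo t κ (1, x))`, `S_Ht`, `S_Ba`. -/
def S_Cb : Prop := ∀ (V I : Type) [NormedAddCommGroup V] [NormedSpace ℝ V] [FiniteDimensional ℝ V]
  [Fintype I] (n : ℕ), n ≤ Module.finrank ℝ V → ∀ f : (Fin n → ℝ) → Conf V I,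
  ContinuousOn f (sphere 0 1) → ∃ g : (Fin n → ℝ) → Conf V I, ContinuousOn g (closedBall 0 1) ∧
    ∀ x ∈ sphere (0 : Fin n → ℝ) 1, g x = f x

/-- **Nr.** Other norms.

Proof. Let `L : E ≃L[ℝ] (Fin n → ℝ)`, `φ x = (‖x‖ / ‖L x‖) • L x` for `x ≠ 0`, `φ 0 = 0`, and `ψ y = (‖y‖ / ‖L⁻¹ y‖) • L⁻¹ y`,
`ψ 0 = 0`.  Then `‖φ x‖ = ‖x‖`, `‖ψ y‖ = ‖y‖`, `ψ (φ x) = x`, both are continuous (at `0` because of the norms).  `f ∘ ψ` is
continuous on the sphere, extends to `g'`, and `g = g' ∘ φ`. -/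
def S_Nr : Prop := ∀ (Y : Type) [TopologicalSpace Y] (n : ℕ),
  (∀ f : (Fin n → ℝ) → Y, ContinuousOn f (sphere 0 1) → ∃ g : (Fin n → ℝ) → Y,
    ContinuousOn g (closedBall 0 1) ∧ ∀ x ∈ sphere (0 : Fin n → ℝ) 1, g x = f x) →
  Cel.ExtP Y n

/-- **Cn.** The main result.  (Uses `S_Cb`, `S_Nr`.) -/
def S_Cn : Prop := ∀ (V I : Type) [NormedAddCommGroup V] [NormedSpace ℝ V] [FiniteDimensional ℝ V]
  [Fintype I] (n : ℕ), n ≤ Module.finrank ℝ V → Cel.ExtP (Conf V I) n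

end Pool.Agent.Tate.Cnn
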